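import Pool.Agent.V8H5.LR.Iter
import Pool.Agent.R959.LD3.Cor5

set_option autoImplicit false

/-!
# Set systems of bounded degree
-/

open Finset

namespace Pool.Agent.V8H5.LR

open Pool.Agent.H320R2.LD Pool.Agent.R959.LD2 Pool.Agent.R959.LD3

theorem log_one_add_le (x : ℝ) (hx : 0 ≤ x) : Real.log (1 + x) ≤ 2 * Real.sqrt x := by
  have h1 : 0 ≤ Real.sqrt x := Real.sqrt_nonneg _
  have h2 : 1 + x ≤ (1 + Real.sqrt x) ^ 2 := by
    have := Real.sq_sqrt hx
    nlinarith
  have h3 : Real.log (1 + x) ≤ Real.log ((1 + Real.sqrt x) ^ 2) :=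
    Real.log_le_log (by linarith) h2
  rw [Real.log_pow] at h3
  have h4 : Real.log (1 + Real.sqrt x) ≤ Real.sqrt x := by
    have := Real.log_le_sub_one_of_pos (show 0 < 1 + Real.sqrt x by linarith)
    linarith
  push_cast at h3
  linarith

/-- Set systems with sets of size at most `k`; `τ` is at least the maximum degree. -/
theorem cor_sets (ν κ : ℝ) (hν : 1 ≤ ν) (hκ : 0 < κ) (h : St_MAIN4 ν κ) :
    ∃ C : ℝ, 0 < C ∧ ∀ (n m k : ℕ) (t τ : ℝ) (S : Fin m → Finset (Fin n)),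
      1 ≤ τ → t ≤ τ → (k : ℝ) ≤ Real.exp (τ ^ κ) → t ≤ k →
      (∀ i : Fin n, ((univ.filter (fun j : Fin m => i ∈ S j)).card : ℝ) ≤ t) →
      (∀ j, (S j).card ≤ k) →
      ∃ χ : Fin n → ℤ, (∀ i, χ i = 1 ∨ χ i = -1) ∧
        ∀ j, ((|∑ i ∈ S j, χ i| : ℤ) : ℝ) ≤
          C * Real.sqrt (max τ ((S j).card / τ ^ (ν - 1))) *
            (1 + Real.log (1 + (S j).card / max τ ((S j).card / τ ^ (ν - 1)))) := by
  classical
  obtain ⟨C, hC, h⟩ := h
  refine ⟨C, hC, fun n m k t τ S hτ1 htτ hkexp htk hdeg hk => ?_⟩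
  have hτ0 : 0 < τ := by linarith
  have hp0 : 0 < τ ^ (ν - 1) := Real.rpow_pos_of_pos hτ0 _
  set w : Fin m → ℝ := fun i => max τ ((S i).card / τ ^ (ν - 1)) with hw
  have hwτ : ∀ i, τ ≤ w i := fun i => le_max_left _ _
  have hwa : ∀ i, ((S i).card : ℝ) / w i ≤ τ ^ (ν - 1) := by
    intro i
    have hwi : 0 < w i := lt_of_lt_of_le hτ0 (hwτ i)
    have h1 : ((S i).card : ℝ) / τ ^ (ν - 1) ≤ w i := le_max_right _ _
    rw [div_le_iff₀ hp0] at h1
    rw [div_le_iff₀ hwi]
    linarith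
  have hw0 : ∀ i, 0 < w i := fun i => lt_of_lt_of_le hτ0 (hwτ i)
  have hsw : ∀ i, 0 < Real.sqrt (w i) := fun i => Real.sqrt_pos.2 (hw0 i)
  set B : Fin m → Fin n → ℝ := fun i j => if j ∈ S i then (Real.sqrt (w i))⁻¹ else 0 with hB
  have hBsq : ∀ i j, B i j ^ 2 = if j ∈ S i then (w i)⁻¹ else 0 := by
    intro i j
    simp only [hB]
    split_ifs with hj
    · rw [inv_pow, Real.sq_sqrt (hw0 i).le]
    · norm_num
  have hBne : ∀ i j, B i j ≠ 0 ↔ j ∈ S i := by
    intro i j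
    simp only [hB]
    split_ifs with hj
    · exact ⟨fun _ => hj, fun _ => (inv_pos.2 (hsw i)).ne'⟩
    · exact ⟨fun h => absurd rfl h, fun h => absurd h hj⟩
  have hrow : ∀ i, ∑ j, B i j ^ 2 = (S i).card / w i := by
    intro i
    simp only [hBsq]
    rw [Finset.sum_ite_mem, Finset.univ_inter, Finset.sum_const, nsmul_eq_mul]
    ring
  have hadm : Adm4 ν κ τ B := by
    refine ⟨fun i j => ?_, fun j => ?_, fun x => ?_, fun i => ?_, fun j => ?_⟩
    · rw [hBsq]
      split_ifs with hj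
      · rw [inv_mul_le_iff₀ (hw0 i), mul_one]
        exact hwτ i
      · linarith
    · simp only [hBsq]
      calc ∑ i, (if j ∈ S i then (w i)⁻¹ else 0) ≤ ∑ i, (if j ∈ S i then τ⁻¹ else 0) := by
            refine Finset.sum_le_sum fun i _ => ?_
            split_ifs with hj
            · exact inv_anti₀ hτ0 (hwτ i)
            · exact le_rfl
        _ = ((univ.filter (fun i : Fin m => j ∈ S i)).card : ℝ) * τ⁻¹ := by
            rw [Finset.sum_ite, Finset.sum_const_zero, add_zero, Finset.sum_const, nsmul_eq_mul]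
        _ ≤ τ * τ⁻¹ := mul_le_mul_of_nonneg_right ((hdeg j).trans htτ) (inv_pos.2 hτ0).le
        _ = 1 := mul_inv_cancel₀ hτ0.ne'
    · have h1 : ∀ i, (∑ j, |B i j| * |x j|) ^ 2 ≤
          τ ^ (ν - 1) * ∑ j, (if j ∈ S i then x j ^ 2 else 0) := by
        intro i
        have e1 : ∑ j, |B i j| * |x j| = (Real.sqrt (w i))⁻¹ * ∑ j ∈ S i, |x j| := by
          rw [Finset.mul_sum, ← Finset.sum_subset (Finset.subset_univ (S i))]
          · refine Finset.sum_congr rfl fun j hj => ?_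
            simp only [hB, if_pos hj]
            rw [abs_of_pos (inv_pos.2 (hsw i))]
          · intro j _ hj
            simp only [hB, if_neg hj, abs_zero, zero_mul]
        have e2 : (∑ j ∈ S i, |x j|) ^ 2 ≤ (S i).card * ∑ j ∈ S i, x j ^ 2 := by
          have := sq_sum_le_card_mul_sum_sq (s := S i) (f := fun j => |x j|)
          simpa only [sq_abs] using this
        have e3 : ∑ j, (if j ∈ S i then x j ^ 2 else 0) = ∑ j ∈ S i, x j ^ 2 := by
          rw [Finset.sum_ite_mem, Finset.univ_inter]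
        rw [e1, e3, mul_pow, inv_pow, Real.sq_sqrt (hw0 i).le]
        calc (w i)⁻¹ * (∑ j ∈ S i, |x j|) ^ 2
            ≤ (w i)⁻¹ * ((S i).card * ∑ j ∈ S i, x j ^ 2) :=
              mul_le_mul_of_nonneg_left e2 (inv_pos.2 (hw0 i)).le
          _ = (S i).card / w i * ∑ j ∈ S i, x j ^ 2 := by ring
          _ ≤ τ ^ (ν - 1) * ∑ j ∈ S i, x j ^ 2 :=
              mul_le_mul_of_nonneg_right (hwa i) (Finset.sum_nonneg fun j _ => sq_nonneg _)
      calc ∑ i, (∑ j, |B i j| * |x j|) ^ 2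
          ≤ ∑ i, τ ^ (ν - 1) * ∑ j, (if j ∈ S i then x j ^ 2 else 0) :=
            Finset.sum_le_sum fun i _ => h1 i
        _ = τ ^ (ν - 1) * ∑ j, ((univ.filter (fun i : Fin m => j ∈ S i)).card : ℝ) * x j ^ 2 := by
            rw [← Finset.mul_sum, Finset.sum_comm]
            congr 1
            refine Finset.sum_congr rfl fun j _ => ?_
            rw [Finset.sum_ite, Finset.sum_const_zero, add_zero, Finset.sum_const, nsmul_eq_mul]
        _ ≤ τ ^ (ν - 1) * ∑ j, τ * x j ^ 2 := by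
            refine mul_le_mul_of_nonneg_left (Finset.sum_le_sum fun j _ => ?_) hp0.le
            exact mul_le_mul_of_nonneg_right ((hdeg j).trans htτ) (sq_nonneg _)
        _ = τ ^ ν * nsq x := by
            rw [← Finset.mul_sum, ← mul_assoc]
            unfold nsq
            congr 1
            calc τ ^ (ν - 1) * τ = τ ^ (ν - 1) * τ ^ (1 : ℝ) := by rw [Real.rpow_one]
              _ = τ ^ ν := by rw [← Real.rpow_add hτ0]; congr 1; ring
    · refine le_trans ?_ hkexp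
      have e : supp (B i) = S i := by
        ext j
        rw [mem_supp, hBne]
      rw [e]
      exact_mod_cast hk i
    · refine le_trans ?_ hkexp
      have e : supp (fun i => B i j) = univ.filter (fun i : Fin m => j ∈ S i) := by
        ext i
        rw [mem_supp, hBne, Finset.mem_filter]
        simp
      rw [e]
      exact (hdeg j).trans htk
  obtain ⟨y, hy, hb⟩ := h τ hτ1 (Fin n) (Fin m) B hadm
  have hχ : ∀ i, ∃ c : ℤ, (c : ℝ) = y i ∧ (c = 1 ∨ c = -1) := by
    intro i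
    rcases hy i with h | h
    · exact ⟨1, by rw [h]; norm_num, Or.inl rfl⟩
    · exact ⟨-1, by rw [h]; norm_num, Or.inr rfl⟩
  choose χ hχ1 hχ2 using hχ
  refine ⟨χ, hχ2, fun j => ?_⟩
  have e1 : ∑ v, B j v * y v = (Real.sqrt (w j))⁻¹ * ((∑ i ∈ S j, χ i : ℤ) : ℝ) := by
    push_cast
    rw [Finset.mul_sum, ← Finset.sum_subset (Finset.subset_univ (S j))]
    · refine Finset.sum_congr rfl fun i hi => ?_
      simp only [hB, if_pos hi]
      rw [hχ1]
    · intro i _ hi
      simp only [hB, if_neg hi, zero_mul]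
  have hbj := hb j
  rw [hrow, e1, abs_mul, abs_of_pos (inv_pos.2 (hsw j)), inv_mul_le_iff₀ (hsw j)] at hbj
  have e2 : ((|∑ i ∈ S j, χ i| : ℤ) : ℝ) = |((∑ i ∈ S j, χ i : ℤ) : ℝ)| := by
    rw [Int.cast_abs]
  rw [e2]
  refine hbj.trans (le_of_eq ?_)
  ring

/-- Set systems with sets of size at most `k`. -/
theorem cor_sets2 (ε κ : ℝ) (hε : 0 < ε) (hε2 : ε ≤ 1/2) (hκ : 0 < κ)
    (h : St_MAIN4 (2 - ε) κ) :
    ∃ C : ℝ, 0 < C ∧ ∀ (n m k : ℕ) (t τ : ℝ) (S : Fin m → Finset (Fin n)),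
      1 ≤ t → t ≤ τ → (k : ℝ) ≤ Real.exp (τ ^ κ) → t ≤ k →
      (∀ i : Fin n, ((univ.filter (fun j : Fin m => i ∈ S j)).card : ℝ) ≤ t) →
      (∀ j, (S j).card ≤ k) →
      ∃ χ : Fin n → ℤ, (∀ i, χ i = 1 ∨ χ i = -1) ∧
        ∀ j, ((|∑ i ∈ S j, χ i| : ℤ) : ℝ) ≤
          C * (Real.sqrt τ * (1 + Real.log (1 + (S j).card / t)) +
            t ^ ε * Real.sqrt ((S j).card / t)) := by
  obtain ⟨C, hC, h⟩ := cor_sets (2 - ε) κ (by linarith) hκ h
  set C1 : ℝ := 1 + 2 / ε + 4 with hC1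
  have hC10 : 0 < C1 := by positivity
  refine ⟨C * (1 + C1), by positivity, fun n m k t τ S ht htτ hkexp htk hdeg hk => ?_⟩
  obtain ⟨χ, h1, h2⟩ := h n m k t τ S (ht.trans htτ) htτ hkexp htk hdeg hk
  refine ⟨χ, h1, fun j => (h2 j).trans ?_⟩
  have ht0 : 0 < t := by linarith
  have hτ1 : 1 ≤ τ := ht.trans htτ
  have hτ0 : 0 < τ := by linarith
  set s : ℝ := ((S j).card : ℝ) with hs
  have hs0 : 0 ≤ s := Nat.cast_nonneg _
  have e0 : (2 : ℝ) - ε - 1 = 1 - ε := by ring
  rw [e0]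
  have hp0 : 0 < τ ^ (1 - ε) := Real.rpow_pos_of_pos hτ0 _
  have hlog0 : 0 ≤ Real.log (1 + s / t) := Real.log_nonneg (by
    have : 0 ≤ s / t := by positivity
    linarith)
  have hsq1 : 0 ≤ Real.sqrt τ := Real.sqrt_nonneg _
  have hb0 : 0 ≤ t ^ ε * Real.sqrt (s / t) := by positivity
  rcases le_total (s / τ ^ (1 - ε)) τ with hc | hc
  · rw [max_eq_left hc]
    have h3 : Real.log (1 + s / τ) ≤ Real.log (1 + s / t) := by
      refine Real.log_le_log (by positivity) ?_
      have := div_le_div_of_nonneg_left hs0 ht0 htτ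
      linarith
    calc C * Real.sqrt τ * (1 + Real.log (1 + s / τ))
        ≤ C * Real.sqrt τ * (1 + Real.log (1 + s / t)) := by gcongr
      _ = C * (1 * (Real.sqrt τ * (1 + Real.log (1 + s / t)) + 0)) := by ring
      _ ≤ C * ((1 + C1) * (Real.sqrt τ * (1 + Real.log (1 + s / t)) +
            t ^ ε * Real.sqrt (s / t))) := by
          refine mul_le_mul_of_nonneg_left ?_ hC.le
          refine mul_le_mul (by linarith) (by linarith) (by positivity) (by positivity)
      _ = C * (1 + C1) * (Real.sqrt τ * (1 + Real.log (1 + s / t)) +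
            t ^ ε * Real.sqrt (s / t)) := by ring
  · rw [max_eq_right hc]
    have hspos : 0 < s := by
      rcases hs0.eq_or_lt with h0 | h0
      · rw [← h0, zero_div] at hc
        linarith
      · exact h0
    have h3 : s / (s / τ ^ (1 - ε)) = τ ^ (1 - ε) := by field_simp
    rw [h3]
    have h4 : 1 + Real.log (1 + τ ^ (1 - ε)) ≤ C1 * τ ^ (ε / 2) := by
      have e1 : τ ^ (1 - ε) ≤ τ := by
        calc τ ^ (1 - ε) ≤ τ ^ (1 : ℝ) := Real.rpow_le_rpow_of_exponent_le hτ1 (by linarith)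
          _ = τ := Real.rpow_one τ
      have e2 : Real.log (1 + τ ^ (1 - ε)) ≤ Real.log (2 * τ) :=
        Real.log_le_log (by linarith) (by linarith)
      rw [Real.log_mul (by norm_num) hτ0.ne'] at e2
      have e3 : Real.log 2 ≤ 1 := by
        have := Real.log_le_sub_one_of_pos (show (0:ℝ) < 2 by norm_num)
        linarith
      have e4 : Real.log τ ≤ τ ^ (ε / 2) / (ε / 2) := Real.log_le_rpow_div hτ0.le (by positivity)
      have e5 : 1 ≤ τ ^ (ε / 2) := Real.one_le_rpow hτ1 (by positivity)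
      have e6 : τ ^ (ε / 2) / (ε / 2) = 2 / ε * τ ^ (ε / 2) := by field_simp
      rw [hC1]
      rw [e6] at e4
      nlinarith
    have h5 : Real.sqrt (s / τ ^ (1 - ε)) * τ ^ (ε / 2) ≤ t ^ ε * Real.sqrt (s / t) := by
      have e1 : Real.sqrt (s / τ ^ (1 - ε)) * τ ^ (ε / 2) = Real.sqrt s * τ ^ (ε - 1/2) := by
        rw [Real.sqrt_div hs0, Real.sqrt_eq_rpow (τ ^ (1 - ε)), ← Real.rpow_mul hτ0.le,
          div_mul_eq_mul_div, mul_div_assoc, ← Real.rpow_sub hτ0]
        congr 2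
        ring
      have e2 : t ^ ε * Real.sqrt (s / t) = Real.sqrt s * t ^ (ε - 1/2) := by
        rw [Real.sqrt_div hs0, Real.sqrt_eq_rpow t, Real.rpow_sub ht0]
        ring
      rw [e1, e2]
      refine mul_le_mul_of_nonneg_left ?_ (Real.sqrt_nonneg _)
      exact Real.rpow_le_rpow_of_nonpos ht0 htτ (by linarith)
    calc C * Real.sqrt (s / τ ^ (1 - ε)) * (1 + Real.log (1 + τ ^ (1 - ε)))
        ≤ C * Real.sqrt (s / τ ^ (1 - ε)) * (C1 * τ ^ (ε / 2)) := by gcongr
      _ = C * (C1 * (Real.sqrt (s / τ ^ (1 - ε)) * τ ^ (ε / 2))) := by ring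
      _ ≤ C * (C1 * (t ^ ε * Real.sqrt (s / t))) := by gcongr
      _ ≤ C * ((1 + C1) * (Real.sqrt τ * (1 + Real.log (1 + s / t)) +
            t ^ ε * Real.sqrt (s / t))) := by
          refine mul_le_mul_of_nonneg_left ?_ hC.le
          have e7 : 0 ≤ Real.sqrt τ * (1 + Real.log (1 + s / t)) := by positivity
          refine mul_le_mul (by linarith) (by linarith) hb0 (by positivity)
      _ = C * (1 + C1) * (Real.sqrt τ * (1 + Real.log (1 + s / t)) +
            t ^ ε * Real.sqrt (s / t)) := by ring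

end Pool.Agent.V8H5.LR
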