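import Pool.Agent.V8H5.LR.Iter
import Pool.Agent.R959.LD3.PARAM3
import Pool.Agent.H320R2.LD.Chain

set_option autoImplicit false

/-!
# The discrepancy of matrices with small entries, columns of norm one and rows of any norm
-/

namespace Pool.Agent.V8H5.LR

open Pool.Agent.H320R2.LD Pool.Agent.R959.LD3

theorem main4 (ν κ : ℝ) (hν : 0 ≤ ν) (hκ : 0 < κ) (h : 9 * κ + ν < 2) : St_MAIN4 ν κ := by
  obtain ⟨σ, hσ⟩ : ∃ σ : ℝ, σ = (κ + (2 - 6 * κ - ν) / 3) / 2 := ⟨_, rfl⟩
  have h1 : κ < σ := by rw [hσ]; linarith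
  have h2 : 3 * κ + ν / 2 + 3 * σ / 2 < 1 := by rw [hσ]; linarith
  have h3 : 0 < σ := by linarith
  have h4 : σ ≤ 1 := by linarith
  have mgf := prove_MGF
  have conc := prove_CONC mgf
  have mom := prove_MOM mgf
  have pot1 := prove_POT1
  have pot2 := prove_POT2
  have mix := prove_MIX
  have lll := prove_LLL mix
  have cond := prove_COND conc mix
  have sh := prove_SH mix
  have phase := phase4 ν κ σ h3 h4 pot1 pot2 sh mgf mom prove_PATH prove_CH cond prove_DEP lll
    prove_GEX conc (prove_PARAM3 ν κ σ hν hκ h1 h2)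
  exact main4_of ν κ σ hκ (iter4 ν κ σ hν h3 phase) (round4 lll ν κ σ hκ h1 (by linarith))

end Pool.Agent.V8H5.LR
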