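import Pool.Agent.V8H5.LR.Cor
import Pool.Agent.V8H5.LR.Main

set_option autoImplicit false

/-!
# All set systems of bounded degree

Sets with more than `k ≈ t exp (2 t ^ κ)` elements are cut into pieces.
-/

open Finset

namespace Pool.Agent.V8H5.LR

open Pool.Agent.R959.LD3

theorem final_bound (ε : ℝ) (hε : 0 < ε) (hε2 : ε ≤ 1/2) :
    ∃ κ C : ℝ, 0 < κ ∧ 0 < C ∧ ∀ (n m t : ℕ) (S : Fin m → Finset (Fin n)), 1 ≤ t →
      (∀ i : Fin n, (univ.filter (fun j : Fin m => i ∈ S j)).card ≤ t) →
      ∃ χ : Fin n → ℤ, (∀ i, χ i = 1 ∨ χ i = -1) ∧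
        ∀ j : Fin m, ((|∑ i ∈ S j, χ i| : ℤ) : ℝ) ≤
          C * (Real.sqrt t * (1 + Real.log (1 + (S j).card / t)) +
            (t : ℝ) ^ ε * Real.sqrt ((S j).card / t) +
            (S j).card * Real.exp (-((t : ℝ) ^ κ))) := by
  classical
  set κ : ℝ := ε / 18 with hκd
  have hκ : 0 < κ := by positivity
  obtain ⟨C, hC, hc⟩ := cor_sets2 ε κ hε hε2 hκ (main4 (2 - ε) κ (by linarith) hκ (by linarith))
  set c2 : ℝ := 1 + (3 + 1 / κ) ^ (1 / κ) with hc2
  have hc21 : 1 ≤ c2 := by
    have : 0 < (3 + 1 / κ) ^ (1 / κ) := by positivity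
    linarith
  have hc20 : 0 < c2 := by linarith
  set C1 : ℝ := C * Real.sqrt c2 with hC1
  have hsc2 : 1 ≤ Real.sqrt c2 := Real.one_le_sqrt.2 hc21
  have hC10 : 0 < C1 := by positivity
  refine ⟨κ, 8 * C1, hκ, by positivity, fun n m t S ht hdeg => ?_⟩
  have htr : (1 : ℝ) ≤ t := by exact_mod_cast ht
  have ht0 : (0 : ℝ) < t := by linarith
  set T : ℝ := (t : ℝ) ^ κ with hT
  have hT1 : 1 ≤ T := Real.one_le_rpow htr hκ.le
  have hT0 : 0 < T := by linarith
  set k : ℕ := ⌈(t : ℝ) * Real.exp (2 * T)⌉₊ with hk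
  have hkge : (t : ℝ) * Real.exp (2 * T) ≤ k := Nat.le_ceil _
  have hexp1 : 1 ≤ Real.exp (2 * T) := Real.one_le_exp (by positivity)
  have hte : 1 ≤ (t : ℝ) * Real.exp (2 * T) := by nlinarith
  have hk2 : (k : ℝ) ≤ 2 * ((t : ℝ) * Real.exp (2 * T)) := by
    have : (k : ℝ) < (t : ℝ) * Real.exp (2 * T) + 1 := Nat.ceil_lt_add_one (by positivity)
    linarith
  have hk1 : (1 : ℝ) ≤ k := hte.trans hkge
  have hk0 : 0 < k := by exact_mod_cast (lt_of_lt_of_le one_pos hk1)
  have hk0r : (0 : ℝ) < k := by linarith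
  have htk : (t : ℝ) ≤ k := by nlinarith
  have hlogk : Real.log k ≤ (3 + 1 / κ) * T := by
    have h1 : Real.log k ≤ Real.log (2 * ((t : ℝ) * Real.exp (2 * T))) :=
      Real.log_le_log hk0r hk2
    rw [Real.log_mul (by norm_num) (by positivity), Real.log_mul (by positivity) (by positivity),
      Real.log_exp] at h1
    have h2 : Real.log 2 ≤ 1 := by
      have := Real.log_le_sub_one_of_pos (show (0:ℝ) < 2 by norm_num)
      linarith
    have h3 : Real.log t ≤ T / κ := Real.log_le_rpow_div ht0.le hκ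
    have h4 : (3 + 1 / κ) * T = 3 * T + T / κ := by ring
    rw [h4]
    linarith
  have hlogk0 : 0 ≤ Real.log k := Real.log_natCast_nonneg k
  have hL : (Real.log k) ^ (1 / κ) ≤ c2 * t := by
    calc (Real.log k) ^ (1 / κ) ≤ ((3 + 1 / κ) * T) ^ (1 / κ) :=
          Real.rpow_le_rpow hlogk0 hlogk (by positivity)
      _ = (3 + 1 / κ) ^ (1 / κ) * t := by
          rw [Real.mul_rpow (by positivity) hT0.le, hT, ← Real.rpow_mul ht0.le,
            mul_one_div_cancel hκ.ne', Real.rpow_one]
      _ ≤ c2 * t := by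
          refine mul_le_mul_of_nonneg_right ?_ ht0.le
          rw [hc2]; linarith
  have hkexp : (k : ℝ) ≤ Real.exp ((c2 * t) ^ κ) := by
    have e1 : Real.log k ≤ (c2 * t) ^ κ := by
      calc Real.log k = ((Real.log k) ^ (1 / κ)) ^ κ := by
            rw [← Real.rpow_mul hlogk0]
            field_simp
            rw [Real.rpow_one]
        _ ≤ (c2 * t) ^ κ := Real.rpow_le_rpow (Real.rpow_nonneg hlogk0 _) hL hκ.le
    calc (k : ℝ) = Real.exp (Real.log k) := (Real.exp_log hk0r).symm
      _ ≤ _ := Real.exp_le_exp.mpr e1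
  -- the refined system
  set P : Fin (m * (n + 1)) → Finset (Fin n) := fun w =>
    piece (S (finProdFinEquiv.symm w).1) k (finProdFinEquiv.symm w).2 with hP
  obtain ⟨χ, hχ1, hχ2⟩ := hc n (m * (n + 1)) k t (c2 * t) P htr (by nlinarith) hkexp htk (by
    intro i
    have hinj : Set.InjOn (fun w : Fin (m * (n + 1)) => (finProdFinEquiv.symm w).1)
        (univ.filter (fun w => i ∈ P w) : Finset (Fin (m * (n + 1)))) := by
      intro w hw w' hw' heq
      have h1 := (Finset.mem_filter.mp hw).2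
      have h2 := (Finset.mem_filter.mp hw').2
      simp only [hP, piece, Finset.mem_filter] at h1 h2
      simp only at heq
      have h3 : ((finProdFinEquiv.symm w).2 : ℕ) = (finProdFinEquiv.symm w').2 := by
        rw [← h1.2, ← h2.2, heq]
      have h4 : finProdFinEquiv.symm w = finProdFinEquiv.symm w' :=
        Prod.ext heq (Fin.ext h3)
      exact finProdFinEquiv.symm.injective h4
    have h5 : (univ.filter (fun w => i ∈ P w) : Finset (Fin (m * (n + 1)))).card ≤ t := by
      refine le_trans ?_ (hdeg i)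
      refine Finset.card_le_card_of_injOn _ ?_ hinj
      intro w hw
      have h1 := (Finset.mem_filter.mp hw).2
      simp only [hP, piece, Finset.mem_filter] at h1
      exact Finset.mem_filter.mpr ⟨Finset.mem_univ _, h1.1⟩
    exact_mod_cast h5) (by
    intro w
    exact piece_card _ _ _ hk0)
  refine ⟨χ, hχ1, fun j => ?_⟩
  have hcardn : (S j).card ≤ n := by
    simpa using Finset.card_le_univ (S j)
  have hst : Real.sqrt (c2 * t) = Real.sqrt c2 * Real.sqrt t := Real.sqrt_mul hc20.le _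
  -- the bound for one piece
  have hpc : ∀ p ∈ Finset.range ((S j).card / k + 1),
      ((|∑ i ∈ piece (S j) k p, χ i| : ℤ) : ℝ) ≤
        C1 * (Real.sqrt t * (1 + Real.log (1 + ((piece (S j) k p).card : ℝ) / t)) +
            (t : ℝ) ^ ε * Real.sqrt (((piece (S j) k p).card : ℝ) / t)) := by
    intro p hp
    have hpn : p < n + 1 := by
      rw [Finset.mem_range] at hp
      have := Nat.div_le_self (S j).card k
      omega
    have h1 := hχ2 (finProdFinEquiv (j, ⟨p, hpn⟩))
    simp only [hP, Equiv.symm_apply_apply] at h1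
    refine h1.trans ?_
    rw [hst, hC1]
    set s : ℝ := ((piece (S j) k p).card : ℝ) with hs
    have hs0 : 0 ≤ s := Nat.cast_nonneg _
    have hlog0 : 0 ≤ Real.log (1 + s / t) := Real.log_nonneg (by
      have : 0 ≤ s / t := by positivity
      linarith)
    have h2 : 0 ≤ (t : ℝ) ^ ε * Real.sqrt (s / t) := by positivity
    have h3 : 0 ≤ Real.sqrt t * (1 + Real.log (1 + s / t)) := by positivity
    calc C * (Real.sqrt c2 * Real.sqrt t * (1 + Real.log (1 + s / t)) +
          (t : ℝ) ^ ε * Real.sqrt (s / t))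
        ≤ C * (Real.sqrt c2 * (Real.sqrt t * (1 + Real.log (1 + s / t))) +
          Real.sqrt c2 * ((t : ℝ) ^ ε * Real.sqrt (s / t))) := by
          refine mul_le_mul_of_nonneg_left ?_ hC.le
          have h4 := le_mul_of_one_le_left h2 hsc2
          have h5 : Real.sqrt c2 * Real.sqrt t * (1 + Real.log (1 + s / t)) =
            Real.sqrt c2 * (Real.sqrt t * (1 + Real.log (1 + s / t))) := by ring
          linarith
      _ = C * Real.sqrt c2 * (Real.sqrt t * (1 + Real.log (1 + s / t)) +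
          (t : ℝ) ^ ε * Real.sqrt (s / t)) := by ring
  have hs0 : (0 : ℝ) ≤ ((S j).card : ℝ) := Nat.cast_nonneg _
  have hlog0 : 0 ≤ Real.log (1 + ((S j).card : ℝ) / t) := Real.log_nonneg (by
    have : 0 ≤ ((S j).card : ℝ) / t := by positivity
    linarith)
  have hA0 : 0 ≤ Real.sqrt t * (1 + Real.log (1 + ((S j).card : ℝ) / t)) := by positivity
  have hB0 : 0 ≤ (t : ℝ) ^ ε * Real.sqrt (((S j).card : ℝ) / t) := by positivity
  have hE0 : 0 ≤ ((S j).card : ℝ) * Real.exp (-T) := by positivity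
  rcases le_or_gt (S j).card k with hcase | hcase
  · -- one piece
    have h1 := hpc 0 (Finset.mem_range.mpr (Nat.succ_pos _))
    rw [piece_small _ _ hcase] at h1
    refine h1.trans ?_
    refine mul_le_mul (by linarith) (by linarith) (by positivity) (by positivity)
  · -- many pieces
    have hcr : (k : ℝ) ≤ ((S j).card : ℝ) := by exact_mod_cast hcase.le
    have h1 : ((|∑ i ∈ S j, χ i| : ℤ) : ℝ) ≤
        ∑ p ∈ Finset.range ((S j).card / k + 1), ((|∑ i ∈ piece (S j) k p, χ i| : ℤ) : ℝ) := by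
      rw [sum_piece (S j) k χ]
      have := Finset.abs_sum_le_sum_abs (fun p => ∑ i ∈ piece (S j) k p, χ i)
        (Finset.range ((S j).card / k + 1))
      exact_mod_cast this
    have h2 : ∀ p ∈ Finset.range ((S j).card / k + 1),
        ((|∑ i ∈ piece (S j) k p, χ i| : ℤ) : ℝ) ≤ 4 * C1 * Real.sqrt k := by
      intro p hp
      refine (hpc p hp).trans ?_
      have h3 : ((piece (S j) k p).card : ℝ) ≤ k := by exact_mod_cast piece_card _ _ _ hk0
      set s : ℝ := ((piece (S j) k p).card : ℝ) with hs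
      have hs0 : 0 ≤ s := Nat.cast_nonneg _
      have hst0 : 0 ≤ s / t := by positivity
      have h4 : Real.sqrt t * Real.sqrt (s / t) ≤ Real.sqrt k := by
        rw [← Real.sqrt_mul ht0.le]
        refine Real.sqrt_le_sqrt ?_
        rw [mul_div_cancel₀ _ ht0.ne']
        exact h3
      have h5 : Real.sqrt t ≤ Real.sqrt k := Real.sqrt_le_sqrt htk
      have h6 := log_one_add_le (s / t) hst0
      have h7 : (t : ℝ) ^ ε ≤ Real.sqrt t := by
        rw [Real.sqrt_eq_rpow]
        exact Real.rpow_le_rpow_of_exponent_le htr hε2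
      have h8 : (t : ℝ) ^ ε * Real.sqrt (s / t) ≤ Real.sqrt t * Real.sqrt (s / t) :=
        mul_le_mul_of_nonneg_right h7 (Real.sqrt_nonneg _)
      have h9 : Real.sqrt t * (1 + Real.log (1 + s / t)) ≤
          Real.sqrt t * (1 + 2 * Real.sqrt (s / t)) :=
        mul_le_mul_of_nonneg_left (by linarith) (Real.sqrt_nonneg _)
      have h10 : Real.sqrt t * (1 + Real.log (1 + s / t)) + (t : ℝ) ^ ε * Real.sqrt (s / t) ≤
          4 * Real.sqrt k := by
        have h11 : Real.sqrt t * (1 + 2 * Real.sqrt (s / t)) =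
          Real.sqrt t + 2 * (Real.sqrt t * Real.sqrt (s / t)) := by ring
        linarith
      calc C1 * (Real.sqrt t * (1 + Real.log (1 + s / t)) + (t : ℝ) ^ ε * Real.sqrt (s / t))
          ≤ C1 * (4 * Real.sqrt k) := mul_le_mul_of_nonneg_left h10 hC10.le
        _ = 4 * C1 * Real.sqrt k := by ring
    have h3 := Finset.sum_le_sum h2
    rw [Finset.sum_const, Finset.card_range, nsmul_eq_mul] at h3
    have h4 : (((S j).card / k + 1 : ℕ) : ℝ) ≤ 2 * (((S j).card : ℝ) / k) := by
      push_cast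
      have h5 : (((S j).card / k : ℕ) : ℝ) ≤ ((S j).card : ℝ) / k := Nat.cast_div_le
      have h6 : 1 ≤ ((S j).card : ℝ) / k := by rw [le_div_iff₀ hk0r]; linarith
      linarith
    have h5 : Real.sqrt k / k ≤ Real.exp (-T) := by
      have e1 : Real.sqrt k * Real.sqrt k = k := Real.mul_self_sqrt hk0r.le
      have e2 : 0 < Real.sqrt k := Real.sqrt_pos.2 hk0r
      have e3 : Real.exp T ≤ Real.sqrt k := by
        apply Real.le_sqrt_of_sq_le
        calc Real.exp T ^ 2 = Real.exp (2 * T) := by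
              rw [← Real.exp_nat_mul]; push_cast; ring_nf
          _ ≤ (t : ℝ) * Real.exp (2 * T) := le_mul_of_one_le_left (by positivity) htr
          _ ≤ k := hkge
      rw [div_le_iff₀ hk0r]
      calc Real.sqrt k = Real.exp (-T) * Real.exp T * Real.sqrt k := by
            rw [← Real.exp_add, neg_add_cancel, Real.exp_zero, one_mul]
        _ ≤ Real.exp (-T) * Real.sqrt k * Real.sqrt k := by gcongr
        _ = Real.exp (-T) * k := by rw [mul_assoc, e1]
    calc ((|∑ i ∈ S j, χ i| : ℤ) : ℝ)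
        ≤ (((S j).card / k + 1 : ℕ) : ℝ) * (4 * C1 * Real.sqrt k) := h1.trans h3
      _ ≤ 2 * (((S j).card : ℝ) / k) * (4 * C1 * Real.sqrt k) :=
          mul_le_mul_of_nonneg_right h4 (by positivity)
      _ = 8 * C1 * (((S j).card : ℝ) * (Real.sqrt k / k)) := by ring
      _ ≤ 8 * C1 * (((S j).card : ℝ) * Real.exp (-T)) := by gcongr
      _ ≤ 8 * C1 * (Real.sqrt t * (1 + Real.log (1 + (S j).card / t)) +
            (t : ℝ) ^ ε * Real.sqrt ((S j).card / t) +
            (S j).card * Real.exp (-T)) := by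
          refine mul_le_mul_of_nonneg_left (by linarith) (by positivity)

end Pool.Agent.V8H5.LR
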