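import Pool.Agent.V8H5.LR.Phase2
import Pool.Agent.V8H5.LR.Round

set_option autoImplicit false

/-!
# Iteration of the phases for rows of arbitrary norm
-/

open MeasureTheory ProbabilityTheory Filter

namespace Pool.Agent.V8H5.LR

open Pool.Agent.H320R2.LD Pool.Agent.R959.LD2 Pool.Agent.R959.LD3

/-- one step of the sum of the errors -/
theorem step_log (r u : ℝ) (hr0 : 0 < r) (hr1 : r < 1) (hu : 0 < u) :
    min 1 u ≤ 2 / (1 - r) * (Real.log (1 + u) - Real.log (1 + r * u)) := by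
  have h1 : 0 < 1 + u := by linarith
  have h2 : 0 < 1 + r * u := by positivity
  have h3 : 0 < 1 - r := by linarith
  have h4 : (1 - r) * u / (1 + u) ≤ Real.log (1 + u) - Real.log (1 + r * u) := by
    have h5 := Real.one_sub_inv_le_log_of_pos (x := (1 + u) / (1 + r * u)) (by positivity)
    rw [Real.log_div h1.ne' h2.ne', inv_div] at h5
    refine le_trans (le_of_eq ?_) h5
    field_simp
    ring
  have h6 : min 1 u ≤ 2 * u / (1 + u) := by
    rw [le_div_iff₀ h1]
    rcases le_total 1 u with h | h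
    · rw [min_eq_left h]; linarith
    · rw [min_eq_right h]; nlinarith
  calc min 1 u ≤ 2 * u / (1 + u) := h6
    _ = 2 / (1 - r) * ((1 - r) * u / (1 + u)) := by field_simp
    _ ≤ _ := mul_le_mul_of_nonneg_left h4 (by positivity)

/-- the sum of the errors of a row -/
theorem sum_min (r X : ℝ) (hr0 : 0 < r) (hr1 : r < 1) (hX : 0 < X) (J : ℕ) :
    ∑ j ∈ Finset.range J, min 1 (r ^ j * X)
      ≤ 2 / (1 - r) * (Real.log (1 + X) - Real.log (1 + r ^ J * X)) := by
  induction J with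
  | zero => simp
  | succ J ih =>
    rw [Finset.sum_range_succ]
    have h1 := step_log r (r ^ J * X) hr0 hr1 (by positivity)
    have h2 : r * (r ^ J * X) = r ^ (J + 1) * X := by ring
    rw [h2] at h1
    linarith

theorem sum_min' (r X : ℝ) (hr0 : 0 < r) (hr1 : r < 1) (hX : 0 < X) (J : ℕ) :
    ∑ j ∈ Finset.range J, min 1 (r ^ j * X) ≤ 2 / (1 - r) * Real.log (1 + X) := by
  refine (sum_min r X hr0 hr1 hX J).trans ?_
  have h1 : 0 < 1 - r := by linarith
  have h2 : 0 ≤ Real.log (1 + r ^ J * X) := Real.log_nonneg (by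
    have : 0 ≤ r ^ J * X := by positivity
    linarith)
  exact mul_le_mul_of_nonneg_left (by linarith) (by positivity)

/-- the number of phases -/
theorem phases_exist (ν σ : ℝ) (hν : 0 ≤ ν) (hσ : 0 < σ) (t : ℝ) (ht : 1 ≤ t) :
    ∃ J : ℕ, (4/5 : ℝ) ^ J * (1 + t ^ ν) ≤ t ^ (-σ) ∧
      (J : ℝ) * t ^ (-σ/4) ≤ 6 + 20 * (ν + σ) / σ := by
  have ht0 : 0 < t := by linarith
  have h1 : 1 ≤ t ^ ν := Real.one_le_rpow ht hν
  have h2 : 1 ≤ t ^ σ := Real.one_le_rpow ht hσ.le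
  set Y : ℝ := (1 + t ^ ν) * t ^ σ with hY
  have hY1 : 1 ≤ Y := by rw [hY]; nlinarith
  have hlY : 0 ≤ Real.log Y := Real.log_nonneg hY1
  refine ⟨⌈5 * Real.log Y⌉₊, ?_, ?_⟩
  · have h3 : 5 * Real.log Y ≤ ⌈5 * Real.log Y⌉₊ := Nat.le_ceil _
    set J := ⌈5 * Real.log Y⌉₊ with hJ
    have h4 : (1 : ℝ) / 5 ≤ Real.log (5/4) := by
      have := Real.one_sub_inv_le_log_of_pos (x := (5/4 : ℝ)) (by norm_num)
      norm_num at this ⊢
      linarith
    have h5 : Y ≤ (5/4 : ℝ) ^ J := by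
      have h6 : (J : ℝ) * (1 / 5) ≤ (J : ℝ) * Real.log (5/4) :=
        mul_le_mul_of_nonneg_left h4 (Nat.cast_nonneg _)
      refine (Real.log_le_log_iff (by linarith) (by positivity)).1 ?_
      rw [Real.log_pow]
      linarith
    have h7 : (4/5 : ℝ) ^ J = ((5/4 : ℝ) ^ J)⁻¹ := by
      rw [← inv_pow]; norm_num
    have h8 : 0 < t ^ σ := by linarith
    rw [h7, Real.rpow_neg ht0.le, inv_mul_le_iff₀ (by positivity), ← div_eq_mul_inv,
      le_div_iff₀ h8]
    exact h5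
  · have h3 : (⌈5 * Real.log Y⌉₊ : ℝ) < 5 * Real.log Y + 1 := Nat.ceil_lt_add_one (by positivity)
    have h4 : Real.log Y ≤ 1 + (ν + σ) * Real.log t := by
      have h5 : Y ≤ 2 * t ^ (ν + σ) := by
        rw [Real.rpow_add ht0, hY]
        nlinarith
      have h6 : Real.log Y ≤ Real.log (2 * t ^ (ν + σ)) := Real.log_le_log (by linarith) h5
      have h8 : Real.log (2 * t ^ (ν + σ)) = Real.log 2 + (ν + σ) * Real.log t := by
        rw [Real.log_mul (by norm_num) (by positivity), Real.log_rpow ht0]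
      have h7 : Real.log 2 ≤ 1 := by
        have := Real.log_le_sub_one_of_pos (show (0:ℝ) < 2 by norm_num)
        linarith
      linarith
    have h5 : Real.log t ≤ t ^ (σ/4) / (σ/4) := Real.log_le_rpow_div ht0.le (by positivity)
    have h6 : t ^ (-σ/4) * t ^ (σ/4) = 1 := by
      rw [← Real.rpow_add ht0]
      have : -σ/4 + σ/4 = 0 := by ring
      rw [this, Real.rpow_zero]
    have h7 : t ^ (-σ/4) ≤ 1 := Real.rpow_le_one_of_one_le_of_nonpos ht (by linarith)
    have h8 : 0 < t ^ (-σ/4) := Real.rpow_pos_of_pos ht0 _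
    have h9 : (⌈5 * Real.log Y⌉₊ : ℝ) ≤ 6 + 5 * (ν + σ) * (t ^ (σ/4) / (σ/4)) := by
      have h10 : (ν + σ) * Real.log t ≤ (ν + σ) * (t ^ (σ/4) / (σ/4)) :=
        mul_le_mul_of_nonneg_left h5 (by positivity)
      linarith
    calc (⌈5 * Real.log Y⌉₊ : ℝ) * t ^ (-σ/4)
        ≤ (6 + 5 * (ν + σ) * (t ^ (σ/4) / (σ/4))) * t ^ (-σ/4) :=
          mul_le_mul_of_nonneg_right h9 h8.le
      _ = 6 * t ^ (-σ/4) + 20 * (ν + σ) / σ * (t ^ (-σ/4) * t ^ (σ/4)) := by
          field_simp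
          ring
      _ ≤ 6 + 20 * (ν + σ) / σ := by rw [h6]; linarith

/-- a row of an admissible matrix has norm at most `t ^ (ν / 2)` -/
theorem row_norm_le {V W : Type} [Fintype V] [Fintype W] (ν κ t : ℝ) (ht : 0 < t)
    (A : W → V → ℝ) (hA : Adm4 ν κ t A) (R : W) : ∑ v, A R v ^ 2 ≤ t ^ ν := by
  obtain ⟨-, -, hop, -, -⟩ := hA
  have h1 := hop (fun v => |A R v|)
  have h2 : (∑ v, |A R v| * |(fun v => |A R v|) v|) ^ 2 ≤
      ∑ R', (∑ v, |A R' v| * |(fun v => |A R v|) v|) ^ 2 :=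
    Finset.single_le_sum (f := fun R' => (∑ v, |A R' v| * |(fun v => |A R v|) v|) ^ 2)
      (fun R' _ => sq_nonneg _) (Finset.mem_univ R)
  have h3 : ∑ v, |A R v| * |(fun v => |A R v|) v| = ∑ v, A R v ^ 2 := by
    refine Finset.sum_congr rfl fun v _ => ?_
    simp only [abs_abs]
    rw [abs_mul_abs_self, sq]
  have h4 : nsq (fun v => |A R v|) = ∑ v, A R v ^ 2 := by
    unfold nsq
    refine Finset.sum_congr rfl fun v _ => sq_abs _
  rw [h3] at h2
  rw [h4] at h1
  have h5 : 0 ≤ ∑ v, A R v ^ 2 := Finset.sum_nonneg fun v _ => sq_nonneg _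
  rcases h5.eq_or_lt with h6 | h6
  · rw [← h6]; positivity
  · have h7 := h2.trans h1
    rw [sq] at h7
    exact le_of_mul_le_mul_right h7 h6

/-- ITER4: iteration of the phases. -/
def St_ITER4 (ν κ σ : ℝ) : Prop := ∃ C t0 : ℝ, 0 < C ∧ 2 ≤ t0 ∧ ∀ (t : ℝ), t0 ≤ t →
  ∀ (V W : Type) [Fintype V] [Fintype W] (A : W → V → ℝ), Adm4 ν κ t A →
  ∃ a : V → ℝ, (∀ v, |a v| ≤ 1) ∧ (∀ R, Phi A a R ≤ t ^ (-σ)) ∧
    ∀ R, |∑ v, A R v * a v| ≤ C * (1 + Real.log (1 + ∑ v, A R v ^ 2))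

theorem iter4 (ν κ σ : ℝ) (hν : 0 ≤ ν) (hσ : 0 < σ) (h1 : St_PHASE4 ν κ σ) :
    St_ITER4 ν κ σ := by
  obtain ⟨C, t0, hC, ht0, hph⟩ := h1
  set ρ : ℝ := (4/5 : ℝ) ^ (1/4 : ℝ) with hρ
  have hρ0 : 0 < ρ := Real.rpow_pos_of_pos (by norm_num) _
  have hρ1 : ρ < 1 := Real.rpow_lt_one (by norm_num) (by norm_num) (by norm_num)
  have h1ρ : 0 < 1 - ρ := by linarith
  set C1 : ℝ := 2 / (1 - ρ) + (6 + 20 * (ν + σ) / σ) with hC1
  have hC10 : 0 < C1 := by positivity
  refine ⟨C * C1, t0, by positivity, ht0, ?_⟩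
  intro t ht V W _ _ A hA
  have htp : 0 < t := by linarith
  have ht1 : 1 ≤ t := by linarith
  have hpow : 0 < t ^ (-σ) := Real.rpow_pos_of_pos htp _
  obtain ⟨J, hJ1, hJ2⟩ := phases_exist ν σ hν hσ t ht1
  set φ : W → ℝ := fun R => ∑ v, A R v ^ 2 with hφ
  have hφ0 : ∀ R, 0 ≤ φ R := fun R => Finset.sum_nonneg fun v _ => sq_nonneg _
  have hφν : ∀ R, φ R ≤ t ^ ν := fun R => row_norm_le ν κ t htp A hA R
  set s : ℕ → W → ℝ := fun j R => max ((4/5 : ℝ) ^ j * (1 + φ R)) (t ^ (-σ)) with hs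
  have key : ∀ j : ℕ, ∃ a : V → ℝ, (∀ v, |a v| ≤ 1) ∧ (∀ R, Phi A a R ≤ s j R) ∧
      ∀ R, |∑ v, A R v * a v| ≤ C * ∑ i ∈ Finset.range j, min 1 (s i R ^ (1/4 : ℝ)) := by
    intro j
    induction j with
    | zero =>
      refine ⟨fun _ => 0, fun v => by simp, fun R => ?_, fun R => by simp⟩
      have h2 : Phi A (fun _ => (0 : ℝ)) R = φ R := by
        unfold Phi
        simp [hφ]
      rw [h2]
      simp only [hs]
      refine le_max_of_le_left ?_
      rw [pow_zero, one_mul]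
      linarith
    | succ j ih =>
      obtain ⟨a, ha1, ha2, ha3⟩ := ih
      obtain ⟨a', ha1', ha2', ha3'⟩ := hph t ht V W A a (s j) hA ha1
        (fun R => le_max_right _ _) ha2
      refine ⟨a', ha1', fun R => ?_, fun R => ?_⟩
      · refine (ha2' R).trans ?_
        simp only [hs]
        rcases le_total ((4/5 : ℝ) ^ j * (1 + φ R)) (t ^ (-σ)) with h | h
        · rw [max_eq_right h]
          refine le_max_of_le_right ?_
          linarith
        · rw [max_eq_left h]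
          refine le_max_of_le_left (le_of_eq ?_)
          rw [pow_succ]; ring
      · have h1 := ha3 R
        have h2 := ha3' R
        have h3 : ∑ v, A R v * a' v = ∑ v, A R v * a v + ∑ v, A R v * (a' v - a v) := by
          rw [← Finset.sum_add_distrib]
          exact Finset.sum_congr rfl fun v _ => by ring
        rw [h3, Finset.sum_range_succ, mul_add]
        exact (abs_add_le _ _).trans (add_le_add h1 h2)
  obtain ⟨a, ha1, ha2, ha3⟩ := key J
  refine ⟨a, ha1, fun R => (ha2 R).trans ?_, fun R => (ha3 R).trans ?_⟩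
  · simp only [hs]
    refine max_le ?_ le_rfl
    refine le_trans ?_ hJ1
    exact mul_le_mul_of_nonneg_left (by linarith [hφν R]) (by positivity)
  · have h1φ : 0 < 1 + φ R := by linarith [hφ0 R]
    set X : ℝ := (1 + φ R) ^ (1/4 : ℝ) with hX
    have hX0 : 0 < X := Real.rpow_pos_of_pos h1φ _
    have hterm : ∀ i, min 1 (s i R ^ (1/4 : ℝ)) ≤ min 1 (ρ ^ i * X) + t ^ (-σ/4) := by
      intro i
      have h4 : ((4/5 : ℝ) ^ i * (1 + φ R)) ^ (1/4 : ℝ) = ρ ^ i * X := by
        rw [Real.mul_rpow (by positivity) h1φ.le, hρ, ← Real.rpow_natCast, ← Real.rpow_natCast,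
          ← Real.rpow_mul (by norm_num), ← Real.rpow_mul (by norm_num), mul_comm (i : ℝ)]
      have h5 : (t ^ (-σ)) ^ (1/4 : ℝ) = t ^ (-σ/4) := by
        rw [← Real.rpow_mul htp.le]
        congr 1
        ring
      have h6 : 0 ≤ t ^ (-σ/4) := (Real.rpow_pos_of_pos htp _).le
      have h7 : 0 ≤ min 1 (ρ ^ i * X) := le_min zero_le_one (by positivity)
      simp only [hs]
      rcases le_total ((4/5 : ℝ) ^ i * (1 + φ R)) (t ^ (-σ)) with h | h
      · rw [max_eq_right h, h5]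
        refine (min_le_right _ _).trans ?_
        linarith
      · rw [max_eq_left h, h4]
        linarith
    have hsum : ∑ i ∈ Finset.range J, min 1 (s i R ^ (1/4 : ℝ)) ≤
        2 / (1 - ρ) * Real.log (1 + X) + (6 + 20 * (ν + σ) / σ) := by
      calc ∑ i ∈ Finset.range J, min 1 (s i R ^ (1/4 : ℝ))
          ≤ ∑ i ∈ Finset.range J, (min 1 (ρ ^ i * X) + t ^ (-σ/4)) :=
            Finset.sum_le_sum fun i _ => hterm i
        _ = ∑ i ∈ Finset.range J, min 1 (ρ ^ i * X) + J * t ^ (-σ/4) := by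
            rw [Finset.sum_add_distrib, Finset.sum_const, Finset.card_range, nsmul_eq_mul]
        _ ≤ _ := add_le_add (sum_min' ρ X hρ0 hρ1 hX0 J) hJ2
    have hlogX : Real.log (1 + X) ≤ 1 + Real.log (1 + φ R) := by
      have hX1 : 1 ≤ X := Real.one_le_rpow (by linarith [hφ0 R]) (by norm_num)
      have h8 : Real.log (1 + X) ≤ Real.log (2 * X) := Real.log_le_log (by linarith) (by linarith)
      rw [Real.log_mul (by norm_num) hX0.ne', hX, Real.log_rpow h1φ] at h8
      have h9 : Real.log 2 ≤ 1 := by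
        have := Real.log_le_sub_one_of_pos (show (0:ℝ) < 2 by norm_num)
        linarith
      have h10 : 0 ≤ Real.log (1 + φ R) := Real.log_nonneg (by linarith [hφ0 R])
      linarith
    have hl0 : 0 ≤ Real.log (1 + φ R) := Real.log_nonneg (by linarith [hφ0 R])
    have h11 : ∑ i ∈ Finset.range J, min 1 (s i R ^ (1/4 : ℝ)) ≤
        C1 * (1 + Real.log (1 + φ R)) := by
      refine hsum.trans ?_
      rw [hC1, add_mul]
      refine add_le_add (mul_le_mul_of_nonneg_left hlogX (by positivity)) ?_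
      exact le_mul_of_one_le_right (by positivity) (by linarith)
    calc C * ∑ i ∈ Finset.range J, min 1 (s i R ^ (1/4 : ℝ))
        ≤ C * (C1 * (1 + Real.log (1 + φ R))) := mul_le_mul_of_nonneg_left h11 hC.le
      _ = C * C1 * (1 + Real.log (1 + φ R)) := by ring

/-- MAIN4: discrepancy of admissible matrices with rows of arbitrary norm. -/
def St_MAIN4 (ν κ : ℝ) : Prop := ∃ C : ℝ, 0 < C ∧ ∀ (t : ℝ), 1 ≤ t →
  ∀ (V W : Type) [Fintype V] [Fintype W] (A : W → V → ℝ), Adm4 ν κ t A →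
  ∃ x : V → ℝ, (∀ v, x v = 1 ∨ x v = -1) ∧
    ∀ R, |∑ v, A R v * x v| ≤ C * (1 + Real.log (1 + ∑ v, A R v ^ 2))

theorem main4_of (ν κ σ : ℝ) (hκ : 0 < κ) (h1 : St_ITER4 ν κ σ) (h2 : St_ROUND4 ν κ σ) :
    St_MAIN4 ν κ := by
  obtain ⟨C, t0, hC, ht0, hI⟩ := h1
  obtain ⟨t1, ht1, hR⟩ := h2
  have hmax : 0 ≤ max t0 t1 := le_trans (by linarith) (le_max_left t0 t1)
  refine ⟨C + 10 + Real.exp ((max t0 t1) ^ κ), by positivity, ?_⟩
  intro t ht V W _ _ A hA
  have hlog0 : ∀ R, 0 ≤ Real.log (1 + ∑ v, A R v ^ 2) := fun R => Real.log_nonneg (by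
    have : 0 ≤ ∑ v, A R v ^ 2 := Finset.sum_nonneg fun v _ => sq_nonneg _
    linarith)
  classical
  by_cases hbig : max t0 t1 ≤ t
  · obtain ⟨a, ha1, ha2, ha3⟩ := hI t ((le_max_left _ _).trans hbig) V W A hA
    have hsq : ∀ R, ∑ v, A R v ^ 2 * (1 - |a v|) ≤ t ^ (-σ) := by
      intro R
      refine le_trans (Finset.sum_le_sum fun v _ => ?_) (ha2 R)
      apply mul_le_mul_of_nonneg_left _ (sq_nonneg _)
      have h0 : 0 ≤ 1 - |a v| := by linarith [ha1 v]
      have h1 : 1 - |a v| ≤ 1 := by linarith [abs_nonneg (a v)]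
      calc 1 - |a v| = Real.sqrt ((1 - |a v|) ^ 2) := (Real.sqrt_sq h0).symm
        _ ≤ Real.sqrt (1 - |a v|) := Real.sqrt_le_sqrt (by nlinarith)
    obtain ⟨x, hx1, hx2⟩ := hR t ((le_max_right _ _).trans hbig) V W A a hA ha1 hsq
    refine ⟨x, hx1, fun R => ?_⟩
    have h3 : ∑ v, A R v * x v = ∑ v, A R v * (x v - a v) + ∑ v, A R v * a v := by
      rw [← Finset.sum_add_distrib]
      exact Finset.sum_congr rfl fun v _ => by ring
    rw [h3]
    refine (abs_add_le _ _).trans ?_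
    have h4 := Real.exp_pos ((max t0 t1) ^ κ)
    have h5 := hx2 R
    have h6 := ha3 R
    have h7 := hlog0 R
    nlinarith
  · push Not at hbig
    refine ⟨fun _ => 1, fun _ => Or.inl rfl, fun R => ?_⟩
    obtain ⟨hA1, _, _, hA4, _⟩ := hA
    have h1 : ∀ v, |A R v| ≤ 1 := by
      intro v
      have h2 := hA1 R v
      have h3 : A R v ^ 2 ≤ 1 := by nlinarith [sq_nonneg (A R v)]
      exact abs_le_one_iff_mul_self_le_one.2 (by nlinarith)
    have h2 : |∑ v, A R v * 1| ≤ ∑ v ∈ supp (A R), (1 : ℝ) := by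
      calc |∑ v, A R v * 1| ≤ ∑ v, |A R v * 1| := Finset.abs_sum_le_sum_abs _ _
        _ = ∑ v ∈ supp (A R), |A R v * 1| := by
            symm
            refine Finset.sum_subset (Finset.subset_univ _) fun v _ hv => ?_
            have : A R v = 0 := by
              by_contra h0
              exact hv ((mem_supp _ _).mpr h0)
            rw [this]; simp
        _ ≤ _ := Finset.sum_le_sum fun v _ => by rw [mul_one]; exact h1 v
    rw [Finset.sum_const, nsmul_eq_mul, mul_one] at h2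
    have h4 : Real.exp (t ^ κ) ≤ Real.exp ((max t0 t1) ^ κ) :=
      Real.exp_le_exp.mpr (Real.rpow_le_rpow (by linarith) hbig.le hκ.le)
    have h5 := hA4 R
    have h6 := hlog0 R
    have h7 := Real.exp_pos ((max t0 t1) ^ κ)
    nlinarith

end Pool.Agent.V8H5.LR
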