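import Pool.Agent.V8H5.LR.Tail
import Pool.Agent.H320R2.LD.CT
import Pool.Agent.H320R2.LD.LOC

set_option autoImplicit false

/-!
# The weighted estimate and locality

Adapted from `Pool.Agent.H320R2.LD` (CT, LOC): a separate barrier for every row.
-/

open MeasureTheory ProbabilityTheory

namespace Pool.Agent.V8H5.LR

open Pool.Agent.H320R2.LD

variable {V W : Type} [Fintype V] [Fintype W]

open CT in
/-- weighted (Combes–Thomas) estimate -/
theorem ctw (h2 : St_POT1) (b : W → V → ℝ) (K : W → ℝ) (w0 : ℝ) (hK : ∀ R, 1 ≤ K R)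
    (hw0 : 0 < w0) (hw1 : w0 ≤ 1) (y y' z z' : V → ℝ) (hz : VIw b (pw K w0) y z)
    (hz' : VIw b (pw K w0) y' z') (I : W → V → Prop) (hI : ∀ R v, b R v ≠ 0 → I R v)
    (hot : W → Prop) (d : V → ℕ) (a Q N1 : ℝ) (ha0 : 0 < a) (ha1 : a ≤ 1) (hQ : 0 ≤ Q)
    (hN1 : 0 ≤ N1) (hop : ∀ x : V → ℝ, ∑ R, (∑ v, |b R v| * |x v|) ^ 2 ≤ N1 * nsq x)
    (hsm : 8 * a ^ 2 * Q * N1 ≤ 1)
    (hcold : ∀ R, ¬ hot R → hf (K R) w0 (eta b z R) ≤ Q ∧ hf (K R) w0 (eta b z' R) ≤ Q)
    (hd : ∀ R u w, I R u → I R w → d u ≤ d w + 1)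
    (hdhot : ∀ R u w, hot R → I R u → I R w → d u = d w)
    (v0 : V) (k : ℕ) (hv0 : d v0 = 0) (hk : ∀ u, d u < k → y' u = y u) :
    |z' v0 - z v0| ≤ 2 * Real.exp (-(a * k)) * nrm (y' - y) := by
  have hmono : ∀ R, Monotone (pw K w0 R) := fun R => (h2 (K R) w0 (hK R) hw0 hw1).2.2.1
  have hpf : ∀ R x y, x ≤ y → pw K w0 R y - pw K w0 R x ≤
      max (hf (K R) w0 x) (hf (K R) w0 y) * (y - x) :=
    fun R => (h2 (K R) w0 (hK R) hw0 hw1).2.2.2.2.2.2.1
  obtain ⟨htwo, -, -, -⟩ := twow b (pw K w0) hmono y y' z z' hz hz'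
  set w : V → ℝ := fun v => Real.exp (-(a * d v)) with hw
  set D : V → ℝ := fun v => z' v - z v with hD
  set E : V → ℝ := fun v => y' v - y v with hE
  set Dp : W → ℝ := fun R => pw K w0 R (eta b z' R) - pw K w0 R (eta b z R) with hDp
  have heta : ∀ R, eta b z' R - eta b z R = ∑ v, b R v * D v := by
    intro R
    unfold eta
    rw [← Finset.sum_sub_distrib]
    refine Finset.sum_congr rfl fun v _ => ?_
    simp only [hD]; ring
  -- every row
  have hrow : ∀ R, -(4 * a ^ 2 * Q * (∑ v, |b R v| * |w v * D v|) ^ 2)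
      ≤ Dp R * ∑ v, w v ^ 2 * (b R v * D v) := by
    intro R
    have hsign : 0 ≤ Dp R * (∑ v, b R v * D v) := by
      rw [← heta R]
      rcases le_total (eta b z R) (eta b z' R) with hle | hle
      · exact mul_nonneg (sub_nonneg.mpr (hmono R hle)) (sub_nonneg.mpr hle)
      · exact mul_nonneg_of_nonpos_of_nonpos (sub_nonpos.mpr (hmono R hle)) (sub_nonpos.mpr hle)
    by_cases hh : hot R
    · have := row_hot (b R) D (I R) (hI R) d (hdhot R · · hh) (a := a) hsign
      have h4 : 0 ≤ 4 * a ^ 2 * Q * (∑ v, |b R v| * |w v * D v|) ^ 2 := by positivity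
      have h5 : 0 ≤ Dp R * ∑ v, w v ^ 2 * (b R v * D v) := this
      linarith
    · obtain ⟨hq1, hq2⟩ := hcold R hh
      obtain ⟨Psi, hP0, hPQ, hPe⟩ : ∃ Psi : ℝ, 0 ≤ Psi ∧ Psi ≤ Q ∧
          Dp R = Psi * (∑ v, b R v * D v) := by
        rw [← heta R]
        rcases lt_trichotomy (eta b z R) (eta b z' R) with hlt | heq | hgt
        · have hpos : 0 < eta b z' R - eta b z R := sub_pos.mpr hlt
          refine ⟨Dp R / (eta b z' R - eta b z R), ?_, ?_, ?_⟩
          · exact div_nonneg (sub_nonneg.mpr (hmono R hlt.le)) hpos.le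
          · rw [div_le_iff₀ hpos]
            refine le_trans (hpf R _ _ hlt.le) ?_
            exact mul_le_mul_of_nonneg_right (max_le hq1 hq2) hpos.le
          · field_simp
        · refine ⟨0, le_refl _, hQ, ?_⟩
          simp only [hDp, heq]; ring
        · have hpos : 0 < eta b z R - eta b z' R := sub_pos.mpr hgt
          refine ⟨(pw K w0 R (eta b z R) - pw K w0 R (eta b z' R)) /
            (eta b z R - eta b z' R), ?_, ?_, ?_⟩
          · exact div_nonneg (sub_nonneg.mpr (hmono R hgt.le)) hpos.le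
          · rw [div_le_iff₀ hpos]
            refine le_trans (hpf R _ _ hgt.le) ?_
            exact mul_le_mul_of_nonneg_right (max_le hq2 hq1) hpos.le
          · rw [div_mul_eq_mul_div, eq_div_iff hpos.ne']
            simp only [hDp]; ring
      have := row_cold (b R) D (I R) (hI R) d (hd R) ha0 ha1 hP0 hPQ
      rw [hPe]
      exact this
  -- sum over the rows
  have hsumR : -(1/2 * nsq (fun v => w v * D v))
      ≤ ∑ R, Dp R * ∑ v, w v ^ 2 * (b R v * D v) := by
    have h3 : ∑ R, -(4 * a ^ 2 * Q * (∑ v, |b R v| * |w v * D v|) ^ 2)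
        ≤ ∑ R, Dp R * ∑ v, w v ^ 2 * (b R v * D v) := Finset.sum_le_sum fun R _ => hrow R
    refine le_trans ?_ h3
    rw [Finset.sum_neg_distrib, ← Finset.mul_sum]
    have h4 := hop (fun v => w v * D v)
    have h5 : 4 * a ^ 2 * Q * ∑ R, (∑ v, |b R v| * |w v * D v|) ^ 2
        ≤ 4 * a ^ 2 * Q * (N1 * nsq (fun v => w v * D v)) :=
      mul_le_mul_of_nonneg_left h4 (by positivity)
    have h6 : 4 * a ^ 2 * Q * (N1 * nsq (fun v => w v * D v))
        ≤ 1/2 * nsq (fun v => w v * D v) := by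
      have h7 := CT.nsq_nonneg (fun v => w v * D v)
      have h8 : 4 * a ^ 2 * Q * N1 ≤ 1/2 := by linarith
      calc 4 * a ^ 2 * Q * (N1 * nsq (fun v => w v * D v))
          = (4 * a ^ 2 * Q * N1) * nsq (fun v => w v * D v) := by ring
        _ ≤ 1/2 * nsq (fun v => w v * D v) := mul_le_mul_of_nonneg_right h8 h7
    linarith
  -- sum over the vertices
  have hsumV : nsq (fun v => w v * D v) + ∑ R, Dp R * ∑ v, w v ^ 2 * (b R v * D v)
      ≤ ∑ v, (w v * D v) * (w v * E v) := by
    have h3 : ∑ v, w v ^ 2 * (D v * (D v - E v + ∑ R, b R v * Dp R)) ≤ 0 := by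
      refine Finset.sum_nonpos fun v _ => ?_
      have := htwo v
      exact mul_nonpos_of_nonneg_of_nonpos (sq_nonneg _) this
    have h4 : ∑ v, w v ^ 2 * (D v * (D v - E v + ∑ R, b R v * Dp R))
        = nsq (fun v => w v * D v) - ∑ v, (w v * D v) * (w v * E v)
          + ∑ R, Dp R * ∑ v, w v ^ 2 * (b R v * D v) := by
      have h5 : ∑ R, Dp R * ∑ v, w v ^ 2 * (b R v * D v)
          = ∑ v, w v ^ 2 * (D v * ∑ R, b R v * Dp R) := by
        simp only [Finset.mul_sum]
        rw [Finset.sum_comm]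
        refine Finset.sum_congr rfl fun v _ => Finset.sum_congr rfl fun R _ => ?_
        ring
      rw [h5]
      unfold nsq
      rw [← Finset.sum_sub_distrib, ← Finset.sum_add_distrib]
      refine Finset.sum_congr rfl fun v _ => ?_
      ring
    linarith
  have hcs := CT.inner_le (fun v => w v * D v) (fun v => w v * E v)
  have hmain : nrm (fun v => w v * D v) ≤ 2 * nrm (fun v => w v * E v) := by
    have h3 : 1/2 * nrm (fun v => w v * D v) ^ 2
        ≤ nrm (fun v => w v * D v) * nrm (fun v => w v * E v) := by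
      rw [CT.nrm_sq]
      linarith
    rcases (CT.nrm_nonneg (fun v => w v * D v)).eq_or_lt with h0 | h0
    · rw [← h0]
      exact mul_nonneg (by norm_num) (CT.nrm_nonneg _)
    · have h4 : nrm (fun v => w v * D v) * (1/2 * nrm (fun v => w v * D v))
          ≤ nrm (fun v => w v * D v) * nrm (fun v => w v * E v) := by
        nlinarith
      have h5 := le_of_mul_le_mul_left h4 h0
      linarith
  have hv : |z' v0 - z v0| ≤ nrm (fun v => w v * D v) := by
    have h3 := CT.abs_le_nrm (fun v => w v * D v) v0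
    have h4 : w v0 = 1 := by simp [hw, hv0]
    simp only [h4, one_mul] at h3
    exact h3
  have hwE : nrm (fun v => w v * E v) ≤ Real.exp (-(a * k)) * nrm (y' - y) := by
    have h3 : nrm (fun v => w v * E v) ^ 2 ≤ (Real.exp (-(a * k)) * nrm (y' - y)) ^ 2 := by
      rw [CT.nrm_sq, mul_pow, CT.nrm_sq]
      unfold nsq
      rw [Finset.mul_sum]
      refine Finset.sum_le_sum fun v _ => ?_
      simp only [mul_pow, Pi.sub_apply]
      by_cases hlt : d v < k
      · have : E v = 0 := by simp only [hE, hk v hlt, sub_self]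
        rw [this]
        have : (0:ℝ) ≤ Real.exp (-(a * k)) ^ 2 * (y' v - y v) ^ 2 := by positivity
        simpa using this
      · have hkd : (k : ℝ) ≤ d v := by exact_mod_cast not_lt.mp hlt
        refine mul_le_mul_of_nonneg_right ?_ (sq_nonneg _)
        refine pow_le_pow_left₀ (Real.exp_pos _).le ?_ 2
        exact Real.exp_le_exp.mpr (by nlinarith)
    exact (sq_le_sq₀ (CT.nrm_nonneg _)
      (mul_nonneg (Real.exp_pos _).le (CT.nrm_nonneg _))).mp h3
  calc |z' v0 - z v0| ≤ nrm (fun v => w v * D v) := hv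
    _ ≤ 2 * nrm (fun v => w v * E v) := hmain
    _ ≤ 2 * (Real.exp (-(a * k)) * nrm (y' - y)) := by linarith
    _ = 2 * Real.exp (-(a * k)) * nrm (y' - y) := by ring

open LOC in
open Classical in
/-- the solution is well approximated by local functions -/
theorem locw (hP1 : St_POT1) (hPOT2 : St_POT2) (hCONC : St_CONC) (hMGF : St_MGF)
    (hMOM : St_MOM) (h2 : St_PATH) (h3 : St_CH) (h6 : St_COND)
    (V W : Type) [Fintype V] [Fintype W] [DecidableEq V]
    (b : W → V → ℝ) (K : W → ℝ) (w0 M α q qb ε N1 : ℝ) (D m : ℕ)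
    (z : (V → ℝ) → (V → ℝ)) (I : W → V → Prop) (hK : ∀ R, 1 ≤ K R) (hw0 : 0 < w0)
    (hw01 : w0 ≤ 1) (hz : ∀ y, VIw b (pw K w0) y (z y)) (hI : ∀ R v, b R v ≠ 0 → I R v)
    (hD1 : ∀ R, {v | I R v}.ncard ≤ D) (hD2 : ∀ v, {R | I R v}.ncard ≤ D)
    (hM : 0 < M) (hα : 0 < α) (hα1 : α ≤ 1) (hq : 2 * (1 + 2 * M) ≤ q) (hw0q : w0 ≤ q⁻¹)
    (hN1 : 0 ≤ N1) (hop : ∀ x : V → ℝ, ∑ R, (∑ v, |b R v| * |x v|) ^ 2 ≤ N1 * nsq x)
    (h8 : 8 * α ^ 2 * q ^ 4 * N1 ≤ 1) (hqb : 0 < qb) (hqb1 : qb ≤ 1) (hε : 0 < ε) (hm : 1 ≤ m)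
    (hbig : (2 * (D : ℝ) ^ 2) ^ (4 * m) * Real.exp (-(m : ℝ) * q ^ 2 / (4 * M ^ 2)) ≤ qb ^ 2)
    (v0 : V) : (gam V).real {g | ε + 2 * qb <
      |(∫ g', z (M • mix (ball I (4 * m) v0) g g') v0 ∂(gam V)) - z (M • g) v0|}
    ≤ 2 * qb + 2 * Real.exp (-(ε ^ 2 * Real.exp (4 * α * m) / (16 * M ^ 2))) := by
  have hq0 : 0 < q := by linarith
  obtain ⟨-, -, hlip, -, -, -⟩ := solw hP1 b K w0 z hK hw0 hw01 hz
  have hzc : ∀ v, Continuous (fun g : V → ℝ => z (M • g) v) := by
    intro v
    exact (cont_of_lip (fun y => z y v) (hlip v)).comp (continuous_const_smul M)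
  have hetac : ∀ R, Continuous (fun g : V → ℝ => eta b (z (M • g)) R) := by
    intro R
    unfold eta
    exact continuous_finsetSum _ fun v _ => continuous_const.mul (hzc v)
  set hot : (V → ℝ) → W → Prop := fun g R => wf (K R) w0 (eta b (z (M • g)) R) ≤ q⁻¹ with hhot
  have hhm : ∀ R, MeasurableSet {g | hot g R} := by
    intro R
    have hc : Continuous (fun g : V → ℝ => wf (K R) w0 (eta b (z (M • g)) R)) := by
      unfold wf
      exact (continuous_const.sub (hetac R).abs).max continuous_const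
    exact (isClosed_le hc continuous_const).measurableSet
  set G : Set (V → ℝ) := {g | ∀ l ∈ chains I (4 * m) v0, l.Nodup →
    l.countP (fun R => decide (hot g R)) ≤ m} with hG
  have hGm : MeasurableSet G := by
    have : G = ⋂ l ∈ chains I (4 * m) v0, {g | l.Nodup →
        l.countP (fun R => decide (hot g R)) ≤ m} := by
      ext g; simp [hG]
    rw [this]
    refine Finset.measurableSet_biInter _ fun l _ => ?_
    by_cases hl : l.Nodup
    · simp only [hl, true_imp_iff]
      exact measurableSet_le (meas_countP hot hhm l) measurable_const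
    · simp only [hl, false_imp_iff]
      exact MeasurableSet.univ
  have hGc : (gam V).real Gᶜ ≤ qb ^ 2 := by
    refine le_trans ?_ hbig
    set E : ℝ := Real.exp (-(m : ℝ) * q ^ 2 / (4 * M ^ 2)) with hE
    have hsub : Gᶜ ⊆ ⋃ l ∈ chains I (4 * m) v0,
        ⋃ N ∈ l.toFinset.powerset.filter (fun N => m ≤ N.card), {g | ∀ R ∈ N, hot g R} := by
      intro g hg
      simp only [hG, Set.mem_compl_iff, Set.mem_ofPred_eq, not_forall, not_le] at hg
      obtain ⟨l, hl, hnd, hlt⟩ := hg
      simp only [Set.mem_iUnion, Finset.mem_filter, Finset.mem_powerset]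
      refine ⟨l, hl, l.toFinset.filter (hot g), ⟨Finset.filter_subset _ _, ?_⟩, ?_⟩
      · rw [card_filter_countP _ _ hnd]; exact hlt.le
      · intro R hR
        exact (Finset.mem_filter.1 hR).2
    have hN : ∀ l ∈ chains I (4 * m) v0,
        (gam V).real (⋃ N ∈ l.toFinset.powerset.filter (fun N => m ≤ N.card),
          {g | ∀ R ∈ N, hot g R}) ≤ 2 ^ (4 * m) * E := by
      intro l hl
      refine le_trans (measureReal_biUnion_finset_le _ _) ?_
      have hterm : ∀ N ∈ l.toFinset.powerset.filter (fun N => m ≤ N.card),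
          (gam V).real {g | ∀ R ∈ N, hot g R} ≤ E := by
        intro N hN
        have hNc : m ≤ N.card := (Finset.mem_filter.1 hN).2
        refine le_trans (hotpw hP1 hPOT2 hCONC hMGF hMOM b K w0 M q z hK hw0 hw01 hz hM hq
          hw0q N) ?_
        apply Real.exp_le_exp.2
        have hNc' : (m : ℝ) ≤ N.card := by exact_mod_cast hNc
        apply div_le_div_of_nonneg_right _ (by positivity)
        nlinarith [sq_nonneg q]
      refine le_trans (Finset.sum_le_sum hterm) ?_
      rw [Finset.sum_const, nsmul_eq_mul]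
      apply mul_le_mul_of_nonneg_right _ (Real.exp_pos _).le
      have hc1 : (l.toFinset.powerset.filter (fun N => m ≤ N.card)).card ≤ 2 ^ (4 * m) := by
        refine le_trans (Finset.card_filter_le _ _) ?_
        rw [Finset.card_powerset]
        apply Nat.pow_le_pow_right (by norm_num)
        exact le_trans (List.toFinset_card_le l) (length_of_mem_chains I _ _ _ hl).le
      exact_mod_cast hc1
    have hch : ((chains I (4 * m) v0).card : ℝ) ≤ ((D : ℝ) ^ 2) ^ (4 * m) := by
      have := h3 V W I D (fun R => by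
          have := hD1 R
          rw [Set.ncard_eq_toFinset_card'] at this
          refine le_trans (le_of_eq ?_) this
          congr 1
          ext v
          simp) (fun v => by
          have := hD2 v
          rw [Set.ncard_eq_toFinset_card'] at this
          refine le_trans (le_of_eq ?_) this
          congr 1
          ext v
          simp) (4 * m) v0
      exact_mod_cast this
    calc (gam V).real Gᶜ ≤ (gam V).real (⋃ l ∈ chains I (4 * m) v0,
          ⋃ N ∈ l.toFinset.powerset.filter (fun N => m ≤ N.card), {g | ∀ R ∈ N, hot g R}) :=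
          measureReal_mono hsub (measure_ne_top _ _)
      _ ≤ ∑ l ∈ chains I (4 * m) v0, (gam V).real
          (⋃ N ∈ l.toFinset.powerset.filter (fun N => m ≤ N.card), {g | ∀ R ∈ N, hot g R}) :=
          measureReal_biUnion_finset_le _ _
      _ ≤ ∑ l ∈ chains I (4 * m) v0, 2 ^ (4 * m) * E := Finset.sum_le_sum hN
      _ = (chains I (4 * m) v0).card * (2 ^ (4 * m) * E) := by
          rw [Finset.sum_const, nsmul_eq_mul]
      _ ≤ ((D : ℝ) ^ 2) ^ (4 * m) * (2 ^ (4 * m) * E) := by
          apply mul_le_mul_of_nonneg_right hch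
          exact mul_nonneg (by positivity) (Real.exp_pos _).le
      _ = (2 * (D : ℝ) ^ 2) ^ (4 * m) * E := by
          rw [mul_pow 2 ((D : ℝ) ^ 2)]; ring
  have hL0 : 0 < 2 * M * Real.exp (-(α * (2 * m))) := by positivity
  have hloc : ∀ x ∈ G, ∀ y ∈ G, (∀ v ∈ ball I (4 * m) v0, x v = y v) →
      |z (M • x) v0 - z (M • y) v0| ≤ 2 * M * Real.exp (-(α * (2 * m))) * nrm (x - y) := by
    intro x hx y hy hxy
    obtain ⟨d, hd0, hd1, hd2, hd3⟩ := h2 V W I (fun R => hot y R ∨ hot x R) v0 m (by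
      intro l hl hnd
      refine le_trans (countP_or (fun R => decide (hot y R)) (fun R => decide (hot x R)) _
        (fun R hR => by simpa using hR) l) ?_
      have e1 := hx l hl hnd
      have e2 := hy l hl hnd
      omega)
    have hct := ctw hP1 b K w0 hK hw0 hw01 (M • y) (M • x) (z (M • y)) (z (M • x)) (hz _) (hz _)
      I hI (fun R => hot y R ∨ hot x R) d α (q ^ 4) N1 hα hα1 (by positivity) hN1 hop h8
      (fun R hR => by
        rw [not_or] at hR
        exact ⟨cold hq0 hR.1, cold hq0 hR.2⟩) hd1 hd2 v0 (2 * m) hd0 (by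
        intro u hu
        have hub : u ∈ ball I (4 * m) v0 := by
          by_contra hcon
          have := hd3 u hcon
          omega
        simp only [Pi.smul_apply, hxy u hub])
    rw [nrm_smul M hM.le] at hct
    refine le_trans hct (le_of_eq ?_)
    push_cast
    ring
  have hfin := h6 V (fun g => z (M • g) v0) G (ball I (4 * m) v0)
    (2 * M * Real.exp (-(α * (2 * m)))) ε qb (hzc v0) (fun x => (hz _).1 v0) hGm hL0 hε hqb hqb1
    hGc hloc
  have hexp : -ε ^ 2 / (4 * (2 * M * Real.exp (-(α * (2 * m)))) ^ 2) =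
      -(ε ^ 2 * Real.exp (4 * α * m) / (16 * M ^ 2)) := by
    have e1 : Real.exp (-(α * (2 * m))) ^ 2 * Real.exp (4 * α * m) = 1 := by
      rw [← Real.exp_nat_mul, ← Real.exp_add]
      have : (↑(2 : ℕ) : ℝ) * -(α * (2 * m)) + 4 * α * m = 0 := by push_cast; ring
      rw [this, Real.exp_zero]
    have e2 : Real.exp (-(α * (2 * m))) ≠ 0 := (Real.exp_pos _).ne'
    have e3 : Real.exp (4 * α * m) = (Real.exp (-(α * (2 * m))) ^ 2)⁻¹ :=
      eq_inv_of_mul_eq_one_right e1
    rw [e3]
    generalize Real.exp (-(α * (2 * m))) = X at e2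
    field_simp
    ring
  rw [hexp] at hfin
  exact hfin

end Pool.Agent.V8H5.LR
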