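import Pool.Agent.V8H5.LR.Vi
import Pool.Agent.H320R2.LD.SHIFT
import Pool.Agent.H320R2.LD.MEAN

set_option autoImplicit false

/-!
# Response to a shift of one coordinate; the expected free mass

Adapted from `Pool.Agent.H320R2.LD` (SHIFT, MEAN): rows of arbitrary norm, a separate barrier for
every row.
-/

open MeasureTheory ProbabilityTheory

namespace Pool.Agent.V8H5.LR

open Pool.Agent.H320R2.LD

variable {V W : Type} [Fintype V] [Fintype W]

open SHIFT in
open Classical in
/-- response to a shift of one coordinate -/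
theorem shiftw (hP1 : St_POT1) (hP2 : St_POT2) (b : W → V → ℝ) (K : W → ℝ) (w0 : ℝ)
    (hK : ∀ R, 1 ≤ K R) (hw0 : 0 < w0) (hw1 : w0 ≤ 1) (δ : ℝ) (hδ : 0 < δ)
    (hb : ∀ R, (∑ v, b R v ^ 2) * δ ^ 2 ≤ (w0 / 2) ^ 2) (v : V) (y z z' : V → ℝ)
    (hz : VIw b (pw K w0) y z)
    (hz' : VIw b (pw K w0) (fun u => y u + if u = v then δ else 0) z') :
    δ * (1 - |z v| - 16 * (∑ R, b R v ^ 2 * hf (K R) w0 (eta b z R)) - δ) ≤ z' v - z v := by
  have hmono : ∀ R, Monotone (pw K w0 R) := fun R => (hP1 (K R) w0 (hK R) hw0 hw1).2.2.1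
  have hlip : ∀ R x y, x ≤ y → pw K w0 R y - pw K w0 R x ≤
      max (hf (K R) w0 x) (hf (K R) w0 y) * (y - x) :=
    fun R => (hP1 (K R) w0 (hK R) hw0 hw1).2.2.2.2.2.2.1
  have hcmp : ∀ R x y, |x - y| ≤ w0 / 2 → hf (K R) w0 x ≤ 16 * hf (K R) w0 y :=
    fun R => (hP2 (K R) w0 (hK R) hw0 hw1).2.2.1
  set y' : V → ℝ := fun u => y u + if u = v then δ else 0 with hy'
  obtain ⟨-, hen, hnrm, -⟩ := twow b (pw K w0) hmono y y' z z' hz hz'
  set D : ℝ := z' v - z v with hD
  -- right hand side of the energy inequality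
  have hrhs : ∑ u, (y' u - y u) * (z' u - z u) = δ * D := by
    have : ∀ u, (y' u - y u) * (z' u - z u) = if u = v then δ * D else 0 := by
      intro u
      simp only [hy']
      split_ifs with h
      · subst h; ring
      · ring
    rw [Finset.sum_congr rfl fun u _ => this u]
    simp
  rw [hrhs] at hen
  set e : W → ℝ := fun R => (pw K w0 R (eta b z' R) - pw K w0 R (eta b z R)) *
    (eta b z' R - eta b z R) with he
  have he0 : ∀ R, 0 ≤ e R := by
    intro R
    simp only [he]
    rcases le_total (eta b z R) (eta b z' R) with h | h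
    · exact mul_nonneg (sub_nonneg.2 (hmono R h)) (sub_nonneg.2 h)
    · exact mul_nonneg_of_nonpos_of_nonpos (sub_nonpos.2 (hmono R h)) (sub_nonpos.2 h)
  have hE0 : 0 ≤ ∑ R, e R := Finset.sum_nonneg fun R _ => he0 R
  have hDn : D ^ 2 ≤ nsq (z' - z) := by
    unfold nsq
    have := Finset.single_le_sum (f := fun u => (z' - z) u ^ 2) (fun u _ => sq_nonneg _)
      (Finset.mem_univ v)
    simpa [hD] using this
  have hn0 : 0 ≤ nsq (z' - z) := Finset.sum_nonneg fun u _ => sq_nonneg _
  have h3 : D ^ 2 + ∑ R, e R ≤ δ * D := by linarith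
  have hD0 : 0 ≤ D := by
    by_contra hc
    push Not at hc
    nlinarith [sq_nonneg D]
  -- the norm of the shift
  have hny : nrm (y' - y) = δ := by
    unfold nrm nsq
    have : ∀ u, (y' - y) u ^ 2 = if u = v then δ ^ 2 else 0 := by
      intro u
      simp only [hy', Pi.sub_apply]
      split_ifs with h
      · ring
      · ring
    rw [Finset.sum_congr rfl fun u _ => this u]
    simp [Real.sqrt_sq hδ.le]
  rw [hny] at hnrm
  have hnsq : nsq (z' - z) ≤ δ ^ 2 := by
    have h1 : nsq (z' - z) = nrm (z' - z) ^ 2 := (Real.sq_sqrt hn0).symm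
    rw [h1]
    exact pow_le_pow_left₀ (Real.sqrt_nonneg _) hnrm 2
  have hDδ : D ≤ δ := by
    have : D ^ 2 ≤ δ ^ 2 := hDn.trans hnsq
    exact (abs_le_of_sq_le_sq' this hδ.le).2
  set L : ℝ := 16 * ∑ R, b R v ^ 2 * hf (K R) w0 (eta b z R) with hL
  have hL0 : 0 ≤ L := by
    rw [hL]
    exact mul_nonneg (by norm_num)
      (Finset.sum_nonneg fun R _ => mul_nonneg (sq_nonneg _) (hf_nonneg _ _ _))
  -- the clipped cases
  rcases eq_or_lt_of_le (hz.1 v) with hzv | hzv
  · have : δ * (1 - |z v| - L - δ) ≤ 0 := by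
      rw [hzv]
      nlinarith
    linarith
  rcases eq_or_lt_of_le (hz'.1 v) with hzv' | hzv'
  · have h5 : 1 - |z v| ≤ δ := by
      have h6 := abs_sub_abs_le_abs_sub (z' v) (z v)
      rw [hzv', ← hD, abs_of_nonneg hD0] at h6
      linarith
    have : δ * (1 - |z v| - L - δ) ≤ 0 := by
      refine mul_nonpos_of_nonneg_of_nonpos hδ.le ?_
      linarith
    linarith
  -- the free case
  have hfree : ∀ (F c : ℝ), |c| < 1 → (∀ d : ℝ, |d| ≤ 1 → 0 ≤ F * (d - c)) → F = 0 := by
    intro F c hc h
    have h1 := h 1 (by norm_num)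
    have h2 := h (-1) (by norm_num)
    rw [abs_lt] at hc
    rcases lt_trichotomy F 0 with hF | hF | hF
    · nlinarith
    · exact hF
    · nlinarith
  have hF := hfree _ _ hzv (hz.2 v)
  have hF' := hfree _ _ hzv' (hz'.2 v)
  have hy'v : y' v = y v + δ := by simp [hy']
  have h1 : δ = D + ∑ R, b R v * (pw K w0 R (eta b z' R) - pw K w0 R (eta b z R)) := by
    have : ∑ R, b R v * (pw K w0 R (eta b z' R) - pw K w0 R (eta b z R)) =
        ∑ R, b R v * pw K w0 R (eta b z' R) - ∑ R, b R v * pw K w0 R (eta b z R) := by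
      rw [← Finset.sum_sub_distrib]
      exact Finset.sum_congr rfl fun R _ => by ring
    rw [this, hD]
    rw [hy'v] at hF'
    linarith
  -- the row sums move little
  have hη : ∀ R, |eta b z' R - eta b z R| ≤ w0 / 2 := by
    intro R
    have h4 : eta b z' R - eta b z R = ∑ u, b R u * (z' - z) u := by
      unfold eta
      rw [← Finset.sum_sub_distrib]
      exact Finset.sum_congr rfl fun u _ => by simp only [Pi.sub_apply]; ring
    have h5 := Finset.sum_mul_sq_le_sq_mul_sq Finset.univ (b R) (z' - z)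
    rw [← h4] at h5
    have h6 : (eta b z' R - eta b z R) ^ 2 ≤ (w0 / 2) ^ 2 := by
      refine h5.trans (le_trans ?_ (hb R))
      exact mul_le_mul_of_nonneg_left hnsq (Finset.sum_nonneg fun u _ => sq_nonneg _)
    exact abs_le_of_sq_le_sq h6 (by positivity)
  have hterm : ∀ R, (b R v * (pw K w0 R (eta b z' R) - pw K w0 R (eta b z R))) ^ 2 ≤
      (16 * (b R v ^ 2 * hf (K R) w0 (eta b z R))) * e R := by
    intro R
    have hh := hf_nonneg (K R) w0 (eta b z R)
    have hc1 : hf (K R) w0 (eta b z' R) ≤ 16 * hf (K R) w0 (eta b z R) := hcmp R _ _ (hη R)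
    have key : (pw K w0 R (eta b z' R) - pw K w0 R (eta b z R)) ^ 2 ≤
        16 * hf (K R) w0 (eta b z R) * e R := by
      simp only [he]
      rcases le_total (eta b z R) (eta b z' R) with h | h
      · have h7 := hlip R _ _ h
        have h8 : max (hf (K R) w0 (eta b z R)) (hf (K R) w0 (eta b z' R)) ≤
            16 * hf (K R) w0 (eta b z R) := max_le (by linarith) hc1
        have h9 := hmono R h
        have h10 : pw K w0 R (eta b z' R) - pw K w0 R (eta b z R) ≤
            16 * hf (K R) w0 (eta b z R) * (eta b z' R - eta b z R) :=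
          h7.trans (mul_le_mul_of_nonneg_right h8 (sub_nonneg.2 h))
        have h11 : 0 ≤ pw K w0 R (eta b z' R) - pw K w0 R (eta b z R) := sub_nonneg.2 h9
        nlinarith
      · have h7 := hlip R _ _ h
        have h8 : max (hf (K R) w0 (eta b z' R)) (hf (K R) w0 (eta b z R)) ≤
            16 * hf (K R) w0 (eta b z R) := max_le hc1 (by linarith)
        have h9 := hmono R h
        have h10 : pw K w0 R (eta b z R) - pw K w0 R (eta b z' R) ≤
            16 * hf (K R) w0 (eta b z R) * (eta b z R - eta b z' R) :=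
          h7.trans (mul_le_mul_of_nonneg_right h8 (sub_nonneg.2 h))
        have h11 : 0 ≤ pw K w0 R (eta b z R) - pw K w0 R (eta b z' R) := sub_nonneg.2 h9
        nlinarith
    calc (b R v * (pw K w0 R (eta b z' R) - pw K w0 R (eta b z R))) ^ 2
        = b R v ^ 2 * (pw K w0 R (eta b z' R) - pw K w0 R (eta b z R)) ^ 2 := by ring
      _ ≤ b R v ^ 2 * (16 * hf (K R) w0 (eta b z R) * e R) :=
          mul_le_mul_of_nonneg_left key (sq_nonneg _)
      _ = (16 * (b R v ^ 2 * hf (K R) w0 (eta b z R))) * e R := by ring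
  have h2 := sum_cs Finset.univ _ (fun R => 16 * (b R v ^ 2 * hf (K R) w0 (eta b z R))) e
    (fun R => mul_nonneg (by norm_num) (mul_nonneg (sq_nonneg _) (hf_nonneg _ _ _))) he0 hterm
  rw [← Finset.mul_sum, ← hL] at h2
  have h12 := final hδ hL0 hE0 h1 h2 h3
  have h13 : δ * (1 - |z v| - L - δ) ≤ δ * (1 - L) := by
    refine mul_le_mul_of_nonneg_left ?_ hδ.le
    have := abs_nonneg (z v)
    linarith
  linarith

open MEAN in
/-- the expected free mass -/
theorem meanw (hP1 : St_POT1) (hP2 : St_POT2) (hSH : St_SH) (b : W → V → ℝ) (K : W → ℝ)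
    (w0 M δ : ℝ) (z : (V → ℝ) → (V → ℝ)) (hK : ∀ R, 1 ≤ K R) (hw0 : 0 < w0) (hw1 : w0 ≤ 1)
    (hz : ∀ y, VIw b (pw K w0) y (z y)) (hM : 0 < M) (hδ : 0 < δ)
    (hrow : ∀ R, (∑ v, b R v ^ 2) * δ ^ 2 ≤ (w0 / 2) ^ 2)
    (hint : ∀ R, Integrable (fun g => hf (K R) w0 (eta b (z (M • g)) R)) (gam V)) (v : V) :
    ∫ g, (1 - |z (M • g) v|) ∂(gam V)
      ≤ 1 / M + 16 * (∑ R, b R v ^ 2 * ∫ g, hf (K R) w0 (eta b (z (M • g)) R) ∂(gam V)) + δ := by
  classical
  obtain ⟨-, -, hLip, -, -, -⟩ := solw hP1 b K w0 z hK hw0 hw1 hz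
  have hpm : ∀ R, Monotone (pw K w0 R) := fun R => (hP1 (K R) w0 (hK R) hw0 hw1).2.2.1
  set f : (V → ℝ) → ℝ := fun g => z (M • g) v with hfdef
  have hsm : ∀ x : V → ℝ, ∀ a : ℝ, M • (fun u => x u + if u = v then a else 0)
      = fun u => (M • x) u + if u = v then M * a else 0 := by
    intro x a
    funext u
    by_cases h : u = v <;> simp [h, mul_add]
  have hfL : ∀ x y, |f x - f y| ≤ M * nrm (x - y) := by
    intro x y
    have := hLip v (M • y) (M • x)
    rw [← smul_sub, nrm_smul M hM.le] at this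
    exact this
  have hfc : Continuous f := cont_of_lip hfL
  have hf1 : ∀ x, |f x| ≤ 1 := fun x => (hz (M • x)).1 v
  have hmono : ∀ x : V → ℝ, ∀ a : ℝ, 0 ≤ a →
      f x ≤ f (fun u => x u + if u = v then a else 0) := by
    intro x a ha
    rcases ha.eq_or_lt with h0 | hpos
    · subst h0; simp [hfdef]
    · have h2 := (twow b (pw K w0) hpm (M • x)
        (M • (fun u => x u + if u = v then a else 0)) _ _ (hz _) (hz _)).2.1
      have h3 : ∑ u, ((M • (fun u => x u + if u = v then a else 0)) u - (M • x) u)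
          * (z (M • (fun u => x u + if u = v then a else 0)) u - z (M • x) u)
          = M * a * (f (fun u => x u + if u = v then a else 0) - f x) := by
        rw [hsm]
        rw [Finset.sum_eq_single v]
        · simp [hfdef, hsm]
        · intro u _ hu; simp [hu]
        · intro h; exact absurd (Finset.mem_univ v) h
      rw [h3] at h2
      have h4 : 0 ≤ ∑ R, (pw K w0 R (eta b (z (M • (fun u => x u + if u = v then a else 0))) R)
          - pw K w0 R (eta b (z (M • x)) R))
          * (eta b (z (M • (fun u => x u + if u = v then a else 0))) R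
            - eta b (z (M • x)) R) := by
        refine Finset.sum_nonneg fun R _ => ?_
        rcases le_total (eta b (z (M • (fun u => x u + if u = v then a else 0))) R)
          (eta b (z (M • x)) R) with h | h
        · have := hpm R h
          nlinarith
        · have := hpm R h
          nlinarith
      have h5 := nsq_nonneg (z (M • (fun u => x u + if u = v then a else 0)) - z (M • x))
      have h6 : 0 ≤ M * a * (f (fun u => x u + if u = v then a else 0) - f x) := by linarith
      have h7 : 0 < M * a := by positivity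
      have := nonneg_of_mul_nonneg_right h6 h7
      linarith
  have hsh := hSH V f v (δ / M) (by positivity) hfc hf1 hmono
  -- pointwise lower bound
  have hpt : ∀ x, δ * (1 - |f x|
      - 16 * (∑ R, b R v ^ 2 * hf (K R) w0 (eta b (z (M • x)) R)) - δ)
      ≤ f (fun u => x u + if u = v then δ / M else 0) - f x := by
    intro x
    have h1 := hz (M • (fun u => x u + if u = v then δ / M else 0))
    rw [hsm] at h1
    have h2 : M * (δ / M) = δ := by field_simp
    rw [h2] at h1
    have h3 := shiftw hP1 hP2 b K w0 hK hw0 hw1 δ hδ hrow v (M • x) (z (M • x)) _ (hz _)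
      (by convert h1)
    have h4 : f (fun u => x u + if u = v then δ / M else 0)
        = z (fun u => (M • x) u + if u = v then δ else 0) v := by
      simp only [hfdef]
      rw [hsm, h2]
    rw [h4]
    exact h3
  have hI1 : Integrable (fun x => 1 - |f x|) (gam V) :=
    bdd_integrable (by fun_prop) (B := 1) fun x => by
      have := hf1 x
      have h0 := abs_nonneg (f x)
      rw [abs_le]; constructor <;> linarith
  have hI2 : Integrable (fun x => ∑ R, b R v ^ 2 * hf (K R) w0 (eta b (z (M • x)) R)) (gam V) :=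
    integrable_finsetSum _ fun R _ => (hint R).const_mul _
  have hI3 : Integrable (fun x => f (fun u => x u + if u = v then δ / M else 0) - f x)
      (gam V) := by
    refine bdd_integrable (B := 2) ?_ ?_
    · refine Continuous.sub (hfc.comp ?_) hfc
      refine continuous_pi fun u => ?_
      exact (continuous_apply u).add continuous_const
    · intro x
      have h1 := abs_le.1 (hf1 (fun u => x u + if u = v then δ / M else 0))
      have h2 := abs_le.1 (hf1 x)
      rw [abs_le]; constructor <;> linarith [h1.1, h1.2, h2.1, h2.2]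
  have hI4 : Integrable (fun x => δ * (1 - |f x|
      - 16 * (∑ R, b R v ^ 2 * hf (K R) w0 (eta b (z (M • x)) R)) - δ)) (gam V) :=
    ((hI1.sub (hI2.const_mul 16)).sub (integrable_const δ)).const_mul δ
  have hle := integral_mono hI4 hI3 hpt
  have heq : ∫ x, δ * (1 - |f x|
      - 16 * (∑ R, b R v ^ 2 * hf (K R) w0 (eta b (z (M • x)) R)) - δ) ∂(gam V)
      = δ * ((∫ x, (1 - |f x|) ∂(gam V))
        - 16 * (∑ R, b R v ^ 2 * ∫ x, hf (K R) w0 (eta b (z (M • x)) R) ∂(gam V)) - δ) := by
    rw [integral_const_mul]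
    congr 1
    have hI2' : Integrable (fun x => 16 * ∑ R, b R v ^ 2 * hf (K R) w0 (eta b (z (M • x)) R))
        (gam V) := hI2.const_mul 16
    have hI5 : Integrable (fun x => 1 - |f x|
        - 16 * ∑ R, b R v ^ 2 * hf (K R) w0 (eta b (z (M • x)) R)) (gam V) := hI1.sub hI2'
    rw [integral_sub hI5 (integrable_const δ), integral_sub hI1 hI2', integral_const_mul,
      integral_finsetSum _ fun R _ => (hint R).const_mul _]
    simp only [integral_const_mul, integral_const, probReal_univ, smul_eq_mul, one_mul]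
  rw [heq] at hle
  have hfin := hle.trans hsh
  have h8 : (∫ x, (1 - |f x|) ∂(gam V))
        - 16 * (∑ R, b R v ^ 2 * ∫ x, hf (K R) w0 (eta b (z (M • x)) R) ∂(gam V)) - δ
        ≤ 1 / M := by
    have : δ / M = δ * (1 / M) := by ring
    rw [this] at hfin
    exact le_of_mul_le_mul_left hfin hδ
  simp only [hfdef] at h8
  linarith

end Pool.Agent.V8H5.LR
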