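import Pool.Agent.V8H5.LR.Loc
import Pool.Agent.V8H5.LR.Shift
import Pool.Agent.R959.LD3.Defs
import Pool.Agent.H320R2.LD.PHASE

set_option autoImplicit false
set_option linter.unusedSectionVars false
set_option linter.unusedVariables false
set_option maxHeartbeats 4000000

/-!
# One phase, for rows of arbitrary norm

Adapted from `Pool.Agent.R959.LD3.PHASE3`: the rows may be long (`∑ v, A R v ^ 2` is arbitrary), and
the bound `s R` for the mass of the row, the scale `β R` and the barrier `K R` depend on the row.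
-/

open MeasureTheory ProbabilityTheory

namespace Pool.Agent.V8H5.LR

open Pool.Agent.H320R2.LD Pool.Agent.H320R2.LD.PHASE Pool.Agent.R959.LD2

noncomputable section

/-- admissible matrices; there is no condition on the norms of the rows -/
def Adm4 {V W : Type} [Fintype V] [Fintype W] (ν κ t : ℝ) (A : W → V → ℝ) : Prop :=
  (∀ R v, A R v ^ 2 * t ≤ 1) ∧ (∀ v, ∑ R, A R v ^ 2 ≤ 1) ∧
    (∀ x : V → ℝ, ∑ R, (∑ v, |A R v| * |x v|) ^ 2 ≤ t ^ ν * nsq x) ∧
    (∀ R, ((supp (A R)).card : ℝ) ≤ Real.exp (t ^ κ)) ∧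
    (∀ v, ((supp (fun R => A R v)).card : ℝ) ≤ Real.exp (t ^ κ))

/-- the scaled matrix -/
def bw {V W : Type} (A : W → V → ℝ) (a : V → ℝ) (β : W → ℝ) (R : W) (v : V) : ℝ :=
  A R v * rho a v * β R

theorem bw_supp {V W : Type} {A : W → V → ℝ} {a : V → ℝ} {β : W → ℝ} (R : W) (v : V)
    (h : bw A a β R v ≠ 0) : A R v ≠ 0 := by
  intro h0
  apply h
  unfold bw
  rw [h0]; simp

theorem nw_discw {V W : Type} [Fintype V] {A : W → V → ℝ} {a : V → ℝ} {β : W → ℝ} (R : W)
    (hβ : 0 < β R) (x : V → ℝ) :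
    ∑ v, A R v * (nw a x v - a v) = (β R)⁻¹ * eta (bw A a β) x R := by
  unfold eta
  rw [Finset.mul_sum]
  refine Finset.sum_congr rfl fun v _ => ?_
  unfold nw bw
  field_simp
  ring

open Classical in
/-- The assembly with explicit parameters. -/
theorem core_phasew (hP1 : St_POT1) (hP2 : St_POT2) (hSH : St_SH)
    (hMGF : St_MGF) (hMOM : St_MOM) (hPATH : St_PATH) (hCH : St_CH) (hCOND : St_COND)
    (hDEP : St_DEP) (hLLL : St_LLL) (hGEX : St_GEX) (hCONC : St_CONC)
    {V W : Type} [Fintype V] [Fintype W] (A : W → V → ℝ) (a : V → ℝ) (ν κ t s0 : ℝ)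
    (s β K : W → ℝ)
    (hA : Adm4 ν κ t A) (ha : ∀ v, |a v| ≤ 1) (hPhi : ∀ R, Phi A a R ≤ s R)
    (ht : 1000 ≤ t) (hs0 : 0 < s0) (hs0t : 1 ≤ s0 * t) (hs : ∀ R, s0 ≤ s R)
    (hβ : ∀ R, 0 < β R) (hβs : ∀ R, β R ^ 2 ≤ 1 / s0)
    (M w0 α q qb ε c : ℝ) (D m : ℕ)
    (hM : M = 400) (hK : ∀ R, 1 ≤ K R) (hw0 : 0 < w0) (hw1 : w0 ≤ 1) (hw2 : w0 ≤ 1/1000)
    (hc : c = 1 / 10 ^ 12)
    (hq : 2 * (1 + 2 * M) ≤ q) (hqw : w0 ≤ q⁻¹) (hα : 0 < α) (hα1 : α ≤ 1) (hm : 1 ≤ m)
    (hD : (D : ℕ) = ⌊Real.exp (t ^ κ)⌋₊)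
    (hCT : 8 * α ^ 2 * q ^ 4 * (t ^ ν / s0) ≤ 1)
    (hqb : 0 < qb) (hqb1 : qb ≤ 1) (hε : 0 < ε)
    (hpath : (2 * (D : ℝ) ^ 2) ^ (4 * m) * Real.exp (-(m : ℝ) * q ^ 2 / (4 * M ^ 2)) ≤ qb ^ 2)
    (e0 : ℝ) (he0 : e0 = 1 / (1000 * Real.exp (t ^ κ))) (hεq : ε + 2 * qb ≤ e0)
    (hEH : ∀ (z : (V → ℝ) → (V → ℝ)), (∀ y, VIw (bw A a β) (pw K w0) y (z y)) → ∀ R,
      Integrable (fun g => hf (K R) w0 (eta (bw A a β) (z (M • g)) R)) (gam V) ∧
      β R ^ 2 * ∫ g, hf (K R) w0 (eta (bw A a β) (z (M • g)) R) ∂(gam V) ≤ 1 / 16000)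
    (hfin : 4 * (Real.exp (-(c * (s0 * t))) + 2 * Real.exp (-((w0⁻¹) ^ 4 / M ^ 2))
      + D * (2 * qb + 2 * Real.exp (-(ε ^ 2 * Real.exp (4 * α * m) / (16 * M ^ 2)))))
      * (((D ^ 2 + 1) ^ (2 * (4 * m) + 1) : ℕ) : ℝ) ≤ 1) :
    ∃ a' : V → ℝ, (∀ v, |a' v| ≤ 1) ∧ (∀ R, Phi A a' R ≤ 77/100 * s R) ∧
      ∀ R, |∑ v, A R v * (a' v - a v)| ≤ (K R + 3) * (β R)⁻¹ := by
  have hM0 : 0 < M := by rw [hM]; norm_num
  have ht0 : 0 < t := by linarith
  have hsp : ∀ R, 0 < s R := fun R => hs0.trans_le (hs R)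
  obtain ⟨hA1, hA3, hAop, hA4, hA5⟩ := hA
  set b := bw A a β with hb
  have hcont : ∀ R, Continuous (pw K w0 R) := fun R => (hP1 (K R) w0 (hK R) hw0 hw1).1
  choose z hz using fun y => exw b (pw K w0) hcont y
  obtain ⟨hodd, hlip, hlipv, -, -, -⟩ := solw hP1 b K w0 z hK hw0 hw1 hz
  have hzb : ∀ y v, |z y v| ≤ 1 := fun y v => (hz y).1 v
  have hρ0 : ∀ v, 0 ≤ rho a v := rho_nonneg ha
  have hρ1 : ∀ v, rho a v ≤ 1 := fun v => rho_le_one v
  -- supports
  obtain ⟨I, hI⟩ : ∃ I : W → V → Prop, ∀ R v, I R v ↔ A R v ≠ 0 := ⟨_, fun _ _ => Iff.rfl⟩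
  have hbI : ∀ R v, b R v ≠ 0 → I R v := fun R v h => (hI R v).2 (bw_supp R v h)
  have hAI : ∀ R v, ¬ I R v → A R v = 0 := fun R v h => by
    by_contra h0
    exact h ((hI R v).2 h0)
  have hcardR : ∀ R, (Finset.univ.filter (fun v => I R v)).card ≤ D := by
    intro R
    rw [hD]
    refine Nat.le_floor ?_
    have : (Finset.univ.filter (fun v => I R v)) = supp (A R) := by
      ext v
      rw [Finset.mem_filter, mem_supp, hI]
      simp
    rw [this]
    exact hA4 R
  have hcardV : ∀ v, (Finset.univ.filter (fun R => I R v)).card ≤ D := by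
    intro v
    rw [hD]
    refine Nat.le_floor ?_
    have : (Finset.univ.filter (fun R => I R v)) = supp (fun R => A R v) := by
      ext R
      rw [Finset.mem_filter, mem_supp, hI]
      simp
    rw [this]
    exact hA5 v
  have hncR : ∀ R, {v | I R v}.ncard ≤ D := by
    intro R
    rw [Set.ncard_eq_toFinset_card']
    convert hcardR R using 2
    ext v; simp
  have hncV : ∀ v, {R | I R v}.ncard ≤ D := by
    intro v
    rw [Set.ncard_eq_toFinset_card']
    convert hcardV v using 2
    ext R; simp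
  have hexp1 : 1 ≤ Real.exp (t ^ κ) := Real.one_le_exp (Real.rpow_nonneg ht0.le _)
  have hDe : (D : ℝ) ≤ Real.exp (t ^ κ) := by
    rw [hD]; exact Nat.floor_le (Real.exp_pos _).le
  have he0p : 0 < e0 := by rw [he0]; positivity
  have he01 : e0 ≤ 1 / 1000 := by
    rw [he0]
    refine one_div_le_one_div_of_le (by norm_num) ?_
    linarith
  have habs : ∀ R v, |b R v| = |A R v| * rho a v * β R := by
    intro R v
    rw [hb]
    unfold bw
    rw [abs_mul, abs_mul, abs_of_pos (hβ R), abs_of_nonneg (hρ0 v)]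
  have hbsq : ∀ R v, b R v ^ 2 ≤ A R v ^ 2 * β R ^ 2 := by
    intro R v
    rw [hb]
    unfold bw
    rw [mul_pow, mul_pow]
    refine mul_le_mul_of_nonneg_right ?_ (sq_nonneg _)
    refine mul_le_of_le_one_right (sq_nonneg _) ?_
    nlinarith [hρ0 v, hρ1 v]
  have hb1 : ∀ R v, |b R v| ≤ 1 := by
    intro R v
    rw [← sq_le_one_iff_abs_le_one]
    refine (hbsq R v).trans ?_
    have h1 : A R v ^ 2 ≤ 1 / t := by rw [le_div_iff₀ ht0]; exact hA1 R v
    calc A R v ^ 2 * β R ^ 2 ≤ (1 / t) * (1 / s0) :=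
          mul_le_mul h1 (hβs R) (sq_nonneg _) (by positivity)
      _ = 1 / (s0 * t) := by field_simp
      _ ≤ 1 := by rw [div_le_one (by positivity)]; exact hs0t
  have hOPb : ∀ x : V → ℝ, ∑ R, (∑ v, |b R v| * |x v|) ^ 2 ≤ (t ^ ν / s0) * nsq x := by
    intro x
    have h1 : ∀ R, (∑ v, |b R v| * |x v|) ^ 2 ≤ (∑ v, |A R v| * |x v|) ^ 2 / s0 := by
      intro R
      have h2 : ∑ v, |b R v| * |x v| ≤ (∑ v, |A R v| * |x v|) * β R := by
        rw [Finset.sum_mul]
        refine Finset.sum_le_sum fun v _ => ?_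
        rw [habs]
        have h5 : |A R v| * rho a v ≤ |A R v| := mul_le_of_le_one_right (abs_nonneg _) (hρ1 v)
        calc |A R v| * rho a v * β R * |x v| ≤ |A R v| * β R * |x v| :=
              mul_le_mul_of_nonneg_right (mul_le_mul_of_nonneg_right h5 (hβ R).le) (abs_nonneg _)
          _ = |A R v| * |x v| * β R := by ring
      have h4 : 0 ≤ ∑ v, |b R v| * |x v| :=
        Finset.sum_nonneg fun v _ => mul_nonneg (abs_nonneg _) (abs_nonneg _)
      calc (∑ v, |b R v| * |x v|) ^ 2 ≤ ((∑ v, |A R v| * |x v|) * β R) ^ 2 :=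
            pow_le_pow_left₀ h4 h2 2
        _ = (∑ v, |A R v| * |x v|) ^ 2 * β R ^ 2 := mul_pow _ _ _
        _ ≤ (∑ v, |A R v| * |x v|) ^ 2 * (1 / s0) :=
            mul_le_mul_of_nonneg_left (hβs R) (sq_nonneg _)
        _ = (∑ v, |A R v| * |x v|) ^ 2 / s0 := by ring
    calc ∑ R, (∑ v, |b R v| * |x v|) ^ 2 ≤ ∑ R, (∑ v, |A R v| * |x v|) ^ 2 / s0 :=
          Finset.sum_le_sum fun R _ => h1 R
      _ = (∑ R, (∑ v, |A R v| * |x v|) ^ 2) / s0 := by rw [Finset.sum_div]
      _ ≤ (t ^ ν * nsq x) / s0 := div_le_div_of_nonneg_right (hAop x) hs0.le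
      _ = (t ^ ν / s0) * nsq x := by ring
  -- locality
  set X : V → (V → ℝ) → ℝ := fun v => XX z M (ball I (4 * m) v) v with hX
  set δ1 : ℝ := 2 * qb + 2 * Real.exp (-(ε ^ 2 * Real.exp (4 * α * m) / (16 * M ^ 2))) with hδ1
  have hloc : ∀ v, (gam V).real {g | ε + 2 * qb < |X v g - z (M • g) v|} ≤ δ1 := by
    intro v
    exact locw hP1 hP2 hCONC hMGF hMOM hPATH hCH hCOND V W b K w0 M α q qb ε (t ^ ν / s0) D m z I
      hK hw0 hw1 hz hbI hncR hncV hM0 hα hα1 hq hqw (by positivity) hOPb hCT hqb hqb1 hε hm hpath v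
  -- expected free mass
  have hfree : ∀ v, ∫ g, (1 - |z (M • g) v|) ∂(gam V) ≤ 6 / 1000 := by
    intro v
    set B : ℝ := 1 + ∑ R, ∑ v, b R v ^ 2 with hB
    have hB0 : 0 ≤ ∑ R, ∑ v, b R v ^ 2 :=
      Finset.sum_nonneg fun R _ => Finset.sum_nonneg fun v _ => sq_nonneg _
    have hB1 : 1 ≤ B := by linarith
    have hBR : ∀ R, ∑ v, b R v ^ 2 ≤ B := by
      intro R
      have := Finset.single_le_sum (f := fun R => ∑ v, b R v ^ 2)
        (fun R _ => Finset.sum_nonneg fun v _ => sq_nonneg _) (Finset.mem_univ R)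
      linarith
    set δ : ℝ := (w0 / 2) / B with hδ
    have hδ0 : 0 < δ := by positivity
    have hδw : δ ≤ w0 / 2 := div_le_self (by positivity) hB1
    have h1 := meanw hP1 hP2 hSH b K w0 M δ z hK hw0 hw1 hz hM0 hδ0 (fun R => by
      calc (∑ v, b R v ^ 2) * δ ^ 2 ≤ B * δ ^ 2 :=
            mul_le_mul_of_nonneg_right (hBR R) (sq_nonneg _)
        _ = (w0 / 2) ^ 2 / B := by rw [hδ]; field_simp
        _ ≤ (w0 / 2) ^ 2 := div_le_self (sq_nonneg _) hB1) (fun R => (hEH z hz R).1) v
    have h2 : ∑ R, b R v ^ 2 * ∫ g, hf (K R) w0 (eta b (z (M • g)) R) ∂(gam V) ≤ 1 / 16000 := by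
      calc ∑ R, b R v ^ 2 * ∫ g, hf (K R) w0 (eta b (z (M • g)) R) ∂(gam V)
          ≤ ∑ R, A R v ^ 2 * (1 / 16000) := by
            refine Finset.sum_le_sum fun R _ => ?_
            have h5 : 0 ≤ ∫ g, hf (K R) w0 (eta b (z (M • g)) R) ∂(gam V) :=
              integral_nonneg fun g => hf_nn _ _ _
            calc b R v ^ 2 * ∫ g, hf (K R) w0 (eta b (z (M • g)) R) ∂(gam V)
                ≤ (A R v ^ 2 * β R ^ 2) * ∫ g, hf (K R) w0 (eta b (z (M • g)) R) ∂(gam V) :=
                  mul_le_mul_of_nonneg_right (hbsq R v) h5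
              _ = A R v ^ 2 * (β R ^ 2 * ∫ g, hf (K R) w0 (eta b (z (M • g)) R) ∂(gam V)) := by
                  ring
              _ ≤ A R v ^ 2 * (1 / 16000) :=
                  mul_le_mul_of_nonneg_left (hEH z hz R).2 (sq_nonneg _)
        _ = (∑ R, A R v ^ 2) * (1 / 16000) := by rw [Finset.sum_mul]
        _ ≤ 1 * (1 / 16000) := mul_le_mul_of_nonneg_right (hA3 v) (by norm_num)
        _ = 1 / 16000 := one_mul _
    have h3 : (1 : ℝ) / M = 1 / 400 := by rw [hM]
    rw [h3] at h1
    linarith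
  have hzc : ∀ v, Continuous (fun g => z (M • g) v) := fun v =>
    lip_continuous (zM_lip hM0 hlipv v)
  have hG : ∀ v, ∫ g, Gp (sg a v * z (M • g) v) ∂(gam V) ≤ 3 / 4 := by
    intro v
    refine hGEX V (fun g => z (M • g) v) (hzc v) (fun g => hzb _ _) ?_ (hfree v) (sg a v)
      (sg_cases a v)
    intro g
    have h1 : M • (-g) = -(M • g) := smul_neg _ _
    show z (M • (-g)) v = - z (M • g) v
    rw [h1, hodd]; rfl
  -- progress
  set F : W → (V → ℝ) → ℝ := fun R g => FF A a R (z (M • g)) with hF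
  have hEF : ∀ R, ∫ g, F R g ∂(gam V) ≤ 3 / 4 * s R := by
    intro R
    have h1 : ∫ g, F R g ∂(gam V) = ∑ v, A R v ^ 2 * Real.sqrt (rho a v) *
        ∫ g, Gp (sg a v * z (M • g) v) ∂(gam V) := by
      rw [hF]
      unfold FF
      rw [integral_finsetSum]
      · refine Finset.sum_congr rfl fun v _ => ?_
        rw [integral_const_mul]
      · intro v _
        refine Integrable.const_mul ?_ _
        refine Integrable.of_bound (C := 2) ?_ ?_
        · exact (Gp_continuous.comp (continuous_const.mul (hzc v))).aestronglyMeasurable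
        · refine Filter.Eventually.of_forall fun g => ?_
          rw [Real.norm_eq_abs]
          refine Gp_bdd _ ?_
          rw [abs_mul, sg_abs, one_mul]; exact hzb _ _
    rw [h1]
    have h2 : ∑ v, A R v ^ 2 * Real.sqrt (rho a v) *
        ∫ g, Gp (sg a v * z (M • g) v) ∂(gam V) ≤
        ∑ v, A R v ^ 2 * Real.sqrt (rho a v) * (3 / 4) :=
      Finset.sum_le_sum fun v _ => mul_le_mul_of_nonneg_left (hG v) (by positivity)
    refine h2.trans ?_
    rw [← Finset.sum_mul]
    have h3 : ∑ v, A R v ^ 2 * Real.sqrt (rho a v) ≤ s R := hPhi R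
    linarith
  have hFlip : ∀ R, Lip (10 * Real.sqrt (s R / t) * M) (F R) := by
    intro R x y
    refine (FF_lip t ht0 ha (hsp R) hA1 R (hPhi R) (z (M • x)) (z (M • y))).trans ?_
    rw [mul_assoc (10 * Real.sqrt (s R / t))]
    refine mul_le_mul_of_nonneg_left ?_ (by positivity)
    refine (hlip (M • y) (M • x)).trans ?_
    rw [← smul_sub, nrm_smul, abs_of_pos hM0]
  have hFP : ∀ R, (gam V).real {g | (∫ y, F R y ∂(gam V)) + s R / 100 ≤ F R g}
      ≤ Real.exp (-(c * (s0 * t))) := by
    intro R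
    have hsR := hsp R
    have hL : 0 < 10 * Real.sqrt (s R / t) * M := by positivity
    refine (hCONC V (F R) _ hL (hFlip R) (s R / 100) (by positivity)).trans ?_
    rw [Real.exp_le_exp]
    have h1 : (10 * Real.sqrt (s R / t) * M) ^ 2 = 100 * (s R / t) * 160000 := by
      rw [mul_pow, mul_pow, Real.sq_sqrt (by positivity), hM]; norm_num
    have h0 : c * (s0 * t) ≤ c * (s R * t) := by
      have hc0 : 0 ≤ c := by rw [hc]; norm_num
      exact mul_le_mul_of_nonneg_left (mul_le_mul_of_nonneg_right (hs R) ht0.le) hc0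
    refine le_trans ?_ (neg_le_neg h0)
    rw [h1, hc, neg_div, neg_le_neg_iff, le_div_iff₀ (by positivity)]
    have h2 : (1 / 10 ^ 12 * (s R * t)) * (4 * (100 * (s R / t) * 160000))
        = 64 / 10 ^ 6 * s R ^ 2 := by
      field_simp
      ring
    rw [h2]
    nlinarith [sq_nonneg (s R)]
  -- the events
  have hfar := fun R => farw hP1 hP2 hCONC hMOM b K w0 M z hK hw0 hw1 hz hM0 R
  set E : W → Set (V → ℝ) := fun R => {g | 77/100 * s R < FF A a R (fun v => X v g) ∨
    K R + 3 < |eta b (fun v => X v g) R|} with hE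
  have hXc : ∀ v, Continuous (X v) := fun v => lip_continuous (XX_lip hM0 hlipv hzb _ v)
  have hXb : ∀ v g, |X v g| ≤ 1 := fun v g => XX_abs hzb _ v g
  have hEm : ∀ R, MeasurableSet (E R) := by
    intro R
    have hER : E R = {g | 77/100 * s R < FF A a R (fun v => X v g)} ∪
      {g | K R + 3 < |eta b (fun v => X v g) R|} := rfl
    rw [hER]
    refine MeasurableSet.union ?_ ?_
    · refine measurableSet_lt measurable_const (Continuous.measurable ?_)
      unfold FF
      refine continuous_finsetSum _ fun v _ => ?_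
      exact continuous_const.mul (Gp_continuous.comp (continuous_const.mul (hXc v)))
    · refine measurableSet_lt measurable_const (Continuous.measurable ?_)
      refine Continuous.abs ?_
      unfold eta
      exact continuous_finsetSum _ fun v _ => continuous_const.mul (hXc v)
  have hball : ∀ R v, I R v → ball I (4 * m) v ⊆ rball I (4 * m) R := by
    intro R v hv u hu
    unfold rball
    rw [Finset.mem_filter]
    exact ⟨Finset.mem_univ _, v, hv, hu⟩
  have hXdep : ∀ R v, I R v → ∀ x y : V → ℝ, (∀ u ∈ rball I (4 * m) R, x u = y u) →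
      X v x = X v y := by
    intro R v hv x y hxy
    exact XX_dep _ v x y fun u hu => hxy u (hball R v hv hu)
  have hEdep : ∀ R, ∀ x y : V → ℝ, (∀ u ∈ rball I (4 * m) R, x u = y u) →
      (x ∈ E R → y ∈ E R) := by
    intro R x y hxy hx
    have h1 : FF A a R (fun v => X v x) = FF A a R (fun v => X v y) := by
      unfold FF
      refine Finset.sum_congr rfl fun v _ => ?_
      by_cases hv : I R v
      · show A R v ^ 2 * Real.sqrt (rho a v) * Gp (sg a v * X v x)
          = A R v ^ 2 * Real.sqrt (rho a v) * Gp (sg a v * X v y)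
        rw [hXdep R v hv x y hxy]
      · have : A R v = 0 := hAI R v hv
        rw [this]; simp
    have h2 : eta b (fun v => X v x) R = eta b (fun v => X v y) R := by
      unfold eta
      refine Finset.sum_congr rfl fun v _ => ?_
      by_cases hv : I R v
      · show b R v * X v x = b R v * X v y
        rw [hXdep R v hv x y hxy]
      · have : b R v = 0 := by
          by_contra h0
          exact hv (hbI R v h0)
        rw [this]; simp
    show 77/100 * s R < FF A a R (fun v => X v y) ∨ K R + 3 < |eta b (fun v => X v y) R|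
    rw [← h1, ← h2]
    exact hx
  have hEp : ∀ R, (gam V).real (E R) ≤ Real.exp (-(c * (s0 * t)))
      + 2 * Real.exp (-((w0⁻¹) ^ 4 / M ^ 2)) + D * δ1 := by
    intro R
    set S := Finset.univ.filter (fun v => I R v) with hS
    have hsub : E R ⊆ ({g | (∫ y, F R y ∂(gam V)) + s R / 100 ≤ F R g} ∪
        {g | K R + 2 ≤ |eta b (z (M • g)) R|}) ∪
        ⋃ v ∈ S, {g | ε + 2 * qb < |X v g - z (M • g) v|} := by
      intro g hg
      by_contra hng
      rw [Set.mem_union, Set.mem_union, not_or, not_or] at hng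
      obtain ⟨⟨h1, h2⟩, h3⟩ := hng
      have h1' : F R g < (∫ y, F R y ∂(gam V)) + s R / 100 := not_le.1 h1
      have h2' : |eta b (z (M • g)) R| < K R + 2 := not_le.1 h2
      have h3' : ∀ v, I R v → |X v g - z (M • g) v| ≤ e0 := by
        intro v hv
        by_contra h4
        apply h3
        rw [Set.mem_iUnion₂]
        refine ⟨v, by rw [hS, Finset.mem_filter]; exact ⟨Finset.mem_univ _, hv⟩, ?_⟩
        show ε + 2 * qb < |X v g - z (M • g) v|
        exact lt_of_le_of_lt hεq (not_le.1 h4)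
      -- first alternative
      have h5 : FF A a R (fun v => X v g) ≤ F R g + s R / 100 := by
        have h6 : FF A a R (fun v => X v g) - F R g ≤
            ∑ v, A R v ^ 2 * Real.sqrt (rho a v) * (1 / 100) := by
          rw [hF]
          unfold FF
          rw [← Finset.sum_sub_distrib]
          refine Finset.sum_le_sum fun v _ => ?_
          rw [← mul_sub]
          by_cases hv : I R v
          · refine mul_le_mul_of_nonneg_left ?_ (by positivity)
            have h7 := (le_abs_self _).trans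
              (Gp_lip (sg a v * X v g) (sg a v * z (M • g) v))
            rw [← mul_sub, abs_mul, sg_abs, one_mul] at h7
            refine h7.trans ?_
            have h8 := h3' v hv
            have h9 : e0 ≤ 1 / 1000 := he01
            linarith
          · have : A R v = 0 := hAI R v hv
            rw [this]; simp
        rw [← Finset.sum_mul] at h6
        have h10 : ∑ v, A R v ^ 2 * Real.sqrt (rho a v) ≤ s R := hPhi R
        linarith
      have h11 : |eta b (fun v => X v g) R| ≤ |eta b (z (M • g)) R| + 1 := by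
        have h12 : |eta b (fun v => X v g) R - eta b (z (M • g)) R| ≤ 1 := by
          unfold eta
          rw [← Finset.sum_sub_distrib]
          have h13 : |∑ v, (b R v * X v g - b R v * z (M • g) v)| ≤
              ∑ v, (if I R v then e0 else 0) := by
            refine (Finset.abs_sum_le_sum_abs _ _).trans (Finset.sum_le_sum fun v _ => ?_)
            split_ifs with hv
            · rw [← mul_sub, abs_mul]
              calc |b R v| * |X v g - z (M • g) v| ≤ 1 * e0 :=
                    mul_le_mul (hb1 R v) (h3' v hv) (abs_nonneg _) (by norm_num)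
                _ = e0 := one_mul _
            · have : b R v = 0 := by
                by_contra h0
                exact hv (hbI R v h0)
              rw [this]; simp
          refine h13.trans ?_
          have h14 : ∑ v, (if I R v then e0 else 0) = (S.card : ℝ) * e0 := by
            rw [hS, Finset.sum_ite, Finset.sum_const_zero, add_zero, Finset.sum_const,
              nsmul_eq_mul]
          rw [h14]
          have h15 : (S.card : ℝ) ≤ Real.exp (t ^ κ) := by
            refine le_trans ?_ hDe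
            exact_mod_cast hcardR R
          calc (S.card : ℝ) * e0 ≤ Real.exp (t ^ κ) * e0 :=
                mul_le_mul_of_nonneg_right h15 he0p.le
            _ = 1 / 1000 := by
                rw [he0]
                field_simp
            _ ≤ 1 := by norm_num
        have h18 := abs_sub_abs_le_abs_sub (eta b (fun v => X v g) R) (eta b (z (M • g)) R)
        linarith
      rcases hg with hg | hg
      · have := hEF R
        have hg' : 77/100 * s R < FF A a R (fun v => X v g) := hg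
        linarith
      · have hg' : K R + 3 < |eta b (fun v => X v g) R| := hg
        linarith
    calc (gam V).real (E R) ≤ (gam V).real (({g | (∫ y, F R y ∂(gam V)) + s R / 100 ≤ F R g} ∪
        {g | K R + 2 ≤ |eta b (z (M • g)) R|}) ∪
        ⋃ v ∈ S, {g | ε + 2 * qb < |X v g - z (M • g) v|}) := measureReal_mono hsub
      _ ≤ (gam V).real ({g | (∫ y, F R y ∂(gam V)) + s R / 100 ≤ F R g} ∪
        {g | K R + 2 ≤ |eta b (z (M • g)) R|}) +
        (gam V).real (⋃ v ∈ S, {g | ε + 2 * qb < |X v g - z (M • g) v|}) :=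
          measureReal_union_le _ _
      _ ≤ (Real.exp (-(c * (s0 * t))) + 2 * Real.exp (-((w0⁻¹) ^ 4 / M ^ 2))) + D * δ1 := by
          refine add_le_add ?_ ?_
          · refine (measureReal_union_le _ _).trans ?_
            exact add_le_add (hFP R) (hfar R)
          · refine (measureReal_biUnion_finset_le _ _).trans ?_
            calc ∑ v ∈ S, (gam V).real {g | ε + 2 * qb < |X v g - z (M • g) v|}
                ≤ ∑ v ∈ S, δ1 := Finset.sum_le_sum fun v _ => hloc v
              _ = S.card * δ1 := by rw [Finset.sum_const, nsmul_eq_mul]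
              _ ≤ D * δ1 := by
                  refine mul_le_mul_of_nonneg_right ?_ (by positivity)
                  exact_mod_cast hcardR R
  -- local lemma
  have hδ0 : 0 ≤ δ1 := by positivity
  obtain ⟨g, hg⟩ := hLLL V W (fun _ => gaussianReal 0 1) E (fun R => rball I (4 * m) R) hEm
    hEdep (Real.exp (-(c * (s0 * t))) + 2 * Real.exp (-((w0⁻¹) ^ 4 / M ^ 2)) + D * δ1)
    ((D ^ 2 + 1) ^ (2 * (4 * m) + 1)) (by positivity) (Nat.one_le_pow _ _ (by positivity))
    hEp (fun R => hDEP V W I D hcardR hcardV (4 * m) R) hfin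
  -- the new state
  refine ⟨nw a (fun v => X v g), nw_abs ha _ (fun v => hXb v g), fun R => ?_, fun R => ?_⟩
  · refine (nw_Phi ha _ (fun v => hXb v g) R).trans ?_
    by_contra h1
    exact hg R (Or.inl (not_le.1 h1))
  · rw [nw_discw R (hβ R), abs_mul, abs_of_pos (inv_pos.2 (hβ R)), mul_comm]
    refine mul_le_mul_of_nonneg_right ?_ (inv_pos.2 (hβ R)).le
    by_contra h1
    exact hg R (Or.inr (not_le.1 h1))

end

end Pool.Agent.V8H5.LR
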