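import Pool.Agent.V8H5.LR.Phase

set_option autoImplicit false
set_option maxHeartbeats 4000000

/-!
# The phase lemma for rows of arbitrary norm
-/

open MeasureTheory ProbabilityTheory

namespace Pool.Agent.V8H5.LR

open Pool.Agent.H320R2.LD Pool.Agent.H320R2.LD.PHASE Pool.Agent.R959.LD2 Pool.Agent.R959.LD3

noncomputable section

/-- One phase. The bound `s R` for the mass of the row depends on the row; rows with `1 < s R` are
moved by at most a constant. -/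
def St_PHASE4 (ν κ σ : ℝ) : Prop := ∃ C t0 : ℝ, 0 < C ∧ 2 ≤ t0 ∧ ∀ t : ℝ, t0 ≤ t →
  ∀ (V W : Type) [Fintype V] [Fintype W] (A : W → V → ℝ) (a : V → ℝ) (s : W → ℝ),
  Adm4 ν κ t A → (∀ v, |a v| ≤ 1) → (∀ R, t ^ (-σ) ≤ s R) → (∀ R, Phi A a R ≤ s R) →
  ∃ a' : V → ℝ, (∀ v, |a' v| ≤ 1) ∧ (∀ R, Phi A a' R ≤ 4/5 * s R) ∧
    ∀ R, |∑ v, A R v * (a' v - a v)| ≤ C * min 1 (s R ^ (1/4 : ℝ))

/-- the scale of a row -/
def bet (β1 : ℝ) (s : ℝ) : ℝ := if s ≤ 1 then (Real.sqrt s)⁻¹ else β1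

/-- the barrier of a row -/
def bar (CK : ℝ) (s : ℝ) : ℝ := if s ≤ 1 then CK * s ^ (-(1/4) : ℝ) else 1

theorem phase4 (ν κ σ : ℝ) (hσ0 : 0 < σ) (hσ1 : σ ≤ 1) (hP1 : St_POT1) (hP2 : St_POT2)
    (hSH : St_SH) (hMGF : St_MGF) (hMOM : St_MOM) (hPATH : St_PATH) (hCH : St_CH)
    (hCOND : St_COND) (hDEP : St_DEP) (hLLL : St_LLL) (hGEX : St_GEX) (hCONC : St_CONC)
    (hPARAM : St_PARAM3 ν κ σ) : St_PHASE4 ν κ σ := by
  obtain ⟨Ch, hCh, hEHs⟩ := ehs hP1 hP2 hMOM 400 (by norm_num)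
  obtain ⟨Cl, hCl, hEHl⟩ := ehl hP1 hP2 hMOM 400 (by norm_num)
  obtain ⟨t0, ht02, hpar⟩ := hPARAM 400 (1 / 10 ^ 12) (by norm_num) (by norm_num)
  set CK : ℝ := 1 + 16000 * Ch with hCK
  have hCK1 : 1 ≤ CK := by linarith
  set β1 : ℝ := (Real.sqrt (16000 * Cl + 1))⁻¹ with hβ1
  have hsq0 : 0 < Real.sqrt (16000 * Cl + 1) := Real.sqrt_pos.2 (by positivity)
  have hβ10 : 0 < β1 := inv_pos.2 hsq0
  have hβ1sq : β1 ^ 2 = 1 / (16000 * Cl + 1) := by
    rw [hβ1, inv_pow, Real.sq_sqrt (by positivity), one_div]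
  have hβ1le : β1 ^ 2 ≤ 1 := by
    rw [hβ1sq, div_le_one (by positivity)]
    linarith
  refine ⟨CK + 3 + 4 * β1⁻¹, t0, by positivity, ht02, ?_⟩
  intro t ht V W _ _ A a s hA ha hs hPhi
  have ht0 : 0 < t := by linarith
  have ht1 : 1 ≤ t := by linarith
  have hs0 : 0 < t ^ (-σ) := Real.rpow_pos_of_pos ht0 _
  have hs01 : t ^ (-σ) ≤ 1 := Real.rpow_le_one_of_one_le_of_nonpos ht1 (by linarith)
  obtain ⟨w0, α, q, qb, ε, m, p1, p2, p3, p4, p5, p6, p7, p8, p9, p10, p11, p12, p13, p14, p15⟩ :=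
    hpar t ht (t ^ (-σ)) le_rfl hs01 ⌊Real.exp (t ^ κ)⌋₊ rfl
  have hsp : ∀ R, 0 < s R := fun R => hs0.trans_le (hs R)
  have hs4 : ∀ R, s R ≤ 1 → (1 : ℝ) ≤ s R ^ (-(1/4) : ℝ) := fun R h =>
    Real.one_le_rpow_of_pos_of_le_one_of_nonpos (hsp R) h (by norm_num)
  have he : ε + 2 * qb ≤ 1 / (1000 * Real.exp (t ^ κ)) := by
    rw [le_div_iff₀ (by positivity)]
    exact p14
  have hs0t : 1 ≤ t ^ (-σ) * t := by
    calc (1 : ℝ) = t ^ (-1 : ℝ) * t := by
          rw [Real.rpow_neg_one]; field_simp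
      _ ≤ t ^ (-σ) * t := by
          refine mul_le_mul_of_nonneg_right ?_ ht0.le
          exact Real.rpow_le_rpow_of_exponent_le ht1 (by linarith)
  have hK1 : ∀ R, 1 ≤ bar CK (s R) := by
    intro R
    unfold bar
    split_ifs with h
    · have := hs4 R h
      nlinarith
    · exact le_rfl
  have hβ0 : ∀ R, 0 < bet β1 (s R) := by
    intro R
    unfold bet
    split_ifs with h
    · exact inv_pos.2 (Real.sqrt_pos.2 (hsp R))
    · exact hβ10
  have hβs : ∀ R, bet β1 (s R) ^ 2 ≤ 1 / t ^ (-σ) := by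
    intro R
    unfold bet
    split_ifs with h
    · rw [inv_pow, Real.sq_sqrt (hsp R).le, ← one_div]
      exact one_div_le_one_div_of_le hs0 (hs R)
    · refine hβ1le.trans ?_
      rw [le_div_iff₀ hs0]
      linarith
  have hEHw : ∀ (z : (V → ℝ) → (V → ℝ)),
      (∀ y, VIw (bw A a (fun R => bet β1 (s R))) (pw (fun R => bar CK (s R)) w0) y (z y)) → ∀ R,
      Integrable (fun g => hf (bar CK (s R)) w0
        (eta (bw A a (fun R => bet β1 (s R))) (z ((400 : ℝ) • g)) R)) (gam V) ∧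
      bet β1 (s R) ^ 2 * ∫ g, hf (bar CK (s R)) w0
        (eta (bw A a (fun R => bet β1 (s R))) (z ((400 : ℝ) • g)) R) ∂(gam V) ≤ 1 / 16000 := by
    intro z hz R
    have hR := hsp R
    by_cases h : s R ≤ 1
    · have hrow : ∑ v, bw A a (fun R => bet β1 (s R)) R v ^ 2 ≤ 1 := by
        have h5 : ∀ v, bw A a (fun R => bet β1 (s R)) R v = bb A a (s R) R v := by
          intro v
          have h9 : bet β1 (s R) = (Real.sqrt (s R))⁻¹ := by
            unfold bet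
            rw [if_pos h]
          show A R v * rho a v * bet β1 (s R) = A R v * rho a v / Real.sqrt (s R)
          rw [h9]
          ring
        simp only [h5]
        exact bb_row ha hR R (hPhi R)
      obtain ⟨i1, i2⟩ := hEHs V W (bw A a (fun R => bet β1 (s R))) (fun R => bar CK (s R)) w0 z
        hK1 p3 (by linarith) hz R hrow
      refine ⟨i1, ?_⟩
      have h6 : bet β1 (s R) ^ 2 = 1 / s R := by
        unfold bet
        rw [if_pos h, inv_pow, Real.sq_sqrt hR.le, one_div]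
      rw [h6]
      refine (mul_le_mul_of_nonneg_left i2 (by positivity)).trans ?_
      have h7 : (s R ^ (-(1/4) : ℝ)) ^ 4 = 1 / s R := by
        rw [← Real.rpow_natCast, ← Real.rpow_mul hR.le]
        norm_num
        rw [Real.rpow_neg_one]
      unfold bar
      rw [if_pos h, inv_pow, mul_pow, h7]
      have h1 : (1 / s R) * (Ch * (CK ^ 4 * (1 / s R))⁻¹) = Ch / CK ^ 4 := by
        field_simp
      rw [h1, div_le_div_iff₀ (by positivity) (by norm_num)]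
      have h2 : CK ≤ CK ^ 4 := by
        calc CK = CK ^ 1 := (pow_one _).symm
          _ ≤ CK ^ 4 := pow_le_pow_right₀ hCK1 (by norm_num)
      linarith
    · obtain ⟨i1, i2⟩ := hEHl V W (bw A a (fun R => bet β1 (s R))) (fun R => bar CK (s R)) w0 z
        hK1 p3 (by linarith) hz R
      refine ⟨i1, ?_⟩
      have h6 : bet β1 (s R) ^ 2 = 1 / (16000 * Cl + 1) := by
        unfold bet
        rw [if_neg h, hβ1sq]
      rw [h6]
      refine (mul_le_mul_of_nonneg_left i2 (by positivity)).trans ?_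
      rw [div_mul_eq_mul_div, one_mul, div_le_div_iff₀ (by positivity) (by norm_num)]
      linarith
  obtain ⟨a', h1, h2, h3⟩ := core_phasew hP1 hP2 hSH hMGF hMOM hPATH hCH hCOND hDEP hLLL hGEX
    hCONC A a ν κ t (t ^ (-σ)) s (fun R => bet β1 (s R)) (fun R => bar CK (s R)) hA ha hPhi p1
    hs0 hs0t hs hβ0 hβs 400 w0 α q qb ε (1 / 10 ^ 12) ⌊Real.exp (t ^ κ)⌋₊ m rfl hK1 p3
    (by linarith) p4 rfl p5 p6 p7 p8 p2 rfl p9 p10 p11 p12 p13
    (1 / (1000 * Real.exp (t ^ κ))) rfl he hEHw p15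
  · refine ⟨a', h1, fun R => (h2 R).trans ?_, fun R => (h3 R).trans ?_⟩
    · nlinarith [hsp R]
    · have hR := hsp R
      unfold bar bet
      split_ifs with h
      · have hs14 : 0 < s R ^ (1/4 : ℝ) := Real.rpow_pos_of_pos hR _
        have e1 : Real.sqrt (s R) = s R ^ (1/4 : ℝ) * s R ^ (1/4 : ℝ) := by
          rw [← Real.rpow_add hR, Real.sqrt_eq_rpow]; norm_num
        have e2 : s R ^ (-(1/4) : ℝ) * s R ^ (1/4 : ℝ) = 1 := by
          rw [← Real.rpow_add hR]; norm_num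
        have e3 : s R ^ (1/4 : ℝ) ≤ 1 := Real.rpow_le_one hR.le h (by norm_num)
        have e4 : 0 ≤ 4 * β1⁻¹ := by positivity
        rw [inv_inv, min_eq_right e3, e1]
        calc (CK * s R ^ (-(1/4) : ℝ) + 3) * (s R ^ (1/4 : ℝ) * s R ^ (1/4 : ℝ))
            = CK * (s R ^ (-(1/4) : ℝ) * s R ^ (1/4 : ℝ)) * s R ^ (1/4 : ℝ)
              + 3 * (s R ^ (1/4 : ℝ)) * s R ^ (1/4 : ℝ) := by ring
          _ = CK * s R ^ (1/4 : ℝ) + 3 * (s R ^ (1/4 : ℝ)) * s R ^ (1/4 : ℝ) := by rw [e2]; ring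
          _ ≤ (CK + 3 + 4 * β1⁻¹) * s R ^ (1/4 : ℝ) := by nlinarith
      · push Not at h
        have e3 : (1 : ℝ) ≤ s R ^ (1/4 : ℝ) := Real.one_le_rpow h.le (by norm_num)
        rw [min_eq_left e3]
        nlinarith

end

end Pool.Agent.V8H5.LR
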