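import Pool.Agent.V8H5.LR.Vi
import Pool.Agent.H320R2.LD.FAR
import Pool.Agent.H320R2.LD.EH
import Pool.Agent.H320R2.LD.HOTP

set_option autoImplicit false

/-!
# Tails and mean stiffness

Adapted from `Pool.Agent.H320R2.LD` (FAR, EH, HOTP): a separate barrier for every row. New:
`ehl`, a bound for the mean stiffness which does not depend on the norm of the row.
-/

open MeasureTheory ProbabilityTheory

namespace Pool.Agent.V8H5.LR

open Pool.Agent.H320R2.LD

variable {V W : Type} [Fintype V] [Fintype W]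

open FAR in
/-- a row is very rarely beyond the barrier -/
theorem farw (hP1 : St_POT1) (hP2 : St_POT2) (hCONC : St_CONC) (hMOM : St_MOM)
    (b : W → V → ℝ) (K : W → ℝ) (w0 M : ℝ) (z : (V → ℝ) → (V → ℝ)) (hK : ∀ R, 1 ≤ K R)
    (hw : 0 < w0) (hw1 : w0 ≤ 1) (hz : ∀ y, VIw b (pw K w0) y (z y)) (hM : 0 < M) (R : W) :
    (gam V).real {g | K R + 2 ≤ |eta b (z (M • g)) R|} ≤ 2 * Real.exp (-((w0⁻¹) ^ 4 / M ^ 2)) := by
  obtain ⟨s1, s2, s3, s4, s5, s6⟩ := solw hP1 b K w0 z hK hw hw1 hz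
  obtain ⟨hfar, _⟩ := hP2 (K R) w0 (hK R) hw hw1
  obtain ⟨C8, hC8, hmom⟩ := hMOM
  set f : (V → ℝ) → ℝ := fun g => th (K R) w0 (eta b (z (M • g)) R) with hf
  have hL : (0:ℝ) < M / 2 := by positivity
  have hfL : Lip (M / 2) f := by
    intro x y
    have h := s6 R (M • y) (M • x)
    rw [← smul_sub, nrm_smul M hM] at h
    calc |f x - f y| ≤ M * nrm (x - y) / 2 := h
      _ = M / 2 * nrm (x - y) := by ring
  have hfo : ∀ x, f (-x) = - f x := by
    intro x
    have e1 : z (M • (-x)) = - z (M • x) := by rw [smul_neg, s1]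
    have e2 : eta b (-(z (M • x))) R = - eta b (z (M • x)) R := by
      simp [eta]
    simp only [hf]
    rw [e1, e2, th_neg]
  have hf0 : ∫ x, f x ∂(gam V) = 0 := (hmom V f (M / 2) hL hfL hfo).1
  have hgL : Lip (M / 2) (fun x => - f x) := by
    intro x y
    have := hfL x y
    rw [abs_sub_comm] at this
    calc |(- f x) - (- f y)| = |f y - f x| := by congr 1; ring
      _ ≤ _ := this
  have hg0 : ∫ x, (- f x) ∂(gam V) = 0 := by rw [integral_neg, hf0, neg_zero]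
  have hu : (0:ℝ) ≤ (w0⁻¹) ^ 2 := by positivity
  have c1 := hCONC V f (M / 2) hL hfL ((w0⁻¹) ^ 2) hu
  have c2 := hCONC V (fun x => - f x) (M / 2) hL hgL ((w0⁻¹) ^ 2) hu
  rw [hf0] at c1
  rw [hg0] at c2
  simp only [zero_add] at c1 c2
  have ee : -((w0⁻¹) ^ 2) ^ 2 / (4 * (M / 2) ^ 2) = -((w0⁻¹) ^ 4 / M ^ 2) := by
    field_simp
    ring
  rw [ee] at c1 c2
  have hsub : {g : V → ℝ | K R + 2 ≤ |eta b (z (M • g)) R|} ⊆
      {x | (w0⁻¹) ^ 2 ≤ f x} ∪ {x | (w0⁻¹) ^ 2 ≤ - f x} := by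
    intro g hg
    have h := hfar _ hg
    rcases le_abs.mp h with h | h
    · exact Or.inl h
    · exact Or.inr h
  calc (gam V).real {g | K R + 2 ≤ |eta b (z (M • g)) R|}
      ≤ (gam V).real ({x | (w0⁻¹) ^ 2 ≤ f x} ∪ {x | (w0⁻¹) ^ 2 ≤ - f x}) :=
        measureReal_mono hsub
    _ ≤ (gam V).real {x | (w0⁻¹) ^ 2 ≤ f x} + (gam V).real {x | (w0⁻¹) ^ 2 ≤ - f x} :=
        measureReal_union_le _ _
    _ ≤ Real.exp (-((w0⁻¹) ^ 4 / M ^ 2)) + Real.exp (-((w0⁻¹) ^ 4 / M ^ 2)) :=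
        add_le_add c1 c2
    _ = 2 * Real.exp (-((w0⁻¹) ^ 4 / M ^ 2)) := by ring

theorem hf_bd (K w0 : ℝ) (hw0 : 0 < w0) (x : ℝ) : hf K w0 x ≤ (w0⁻¹) ^ 4 := by
  unfold hf
  refine pow_le_pow_left₀ (inv_nonneg.2 (EH.wf_pos K w0 hw0 x).le) ?_ 4
  exact inv_anti₀ hw0 (le_max_right _ _)

theorem hf_nn (K w0 : ℝ) (x : ℝ) : 0 ≤ hf K w0 x := by
  unfold hf
  positivity

/-- the mean stiffness of a short row is small -/
theorem ehs (hP1 : St_POT1) (hP2 : St_POT2) (hMOM : St_MOM) (M : ℝ) (hM : 0 < M) :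
    ∃ C : ℝ, 0 < C ∧
    ∀ (V W : Type) [Fintype V] [Fintype W] (b : W → V → ℝ) (K : W → ℝ) (w0 : ℝ)
    (z : (V → ℝ) → (V → ℝ)), (∀ R, 1 ≤ K R) → 0 < w0 → w0 ≤ 1 →
    (∀ y, VIw b (pw K w0) y (z y)) → ∀ R, (∑ v, b R v ^ 2 ≤ 1) →
    Integrable (fun g => hf (K R) w0 (eta b (z (M • g)) R)) (gam V) ∧
    ∫ g, hf (K R) w0 (eta b (z (M • g)) R) ∂(gam V) ≤ C * ((K R)⁻¹) ^ 4 := by
  obtain ⟨C8, hC8, hmom⟩ := hMOM
  refine ⟨16 * (1 + C8 * M ^ 8 + 2 ^ 7 * (1 + C8 * (M / 2) ^ 8)), by positivity, ?_⟩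
  intro V W _ _ b K w0 z hK hw0 hw1 hz R hR
  obtain ⟨hodd, -, -, heta, -, hth⟩ := solw hP1 b K w0 z hK hw0 hw1 hz
  obtain ⟨-, -, -, hpot⟩ := hP2 (K R) w0 (hK R) hw0 hw1
  obtain ⟨f, hfd⟩ : ∃ f : (V → ℝ) → ℝ, f = fun g => eta b (z (M • g)) R := ⟨_, rfl⟩
  have hfapp : ∀ g, f g = eta b (z (M • g)) R := fun g => by rw [hfd]
  have hfL : Lip M f := by
    intro x y
    rw [hfapp, hfapp]
    have := heta R hR (M • y) (M • x)
    rw [← smul_sub, EH.nrm_smul M hM] at this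
    exact this
  have hfodd : ∀ x, f (-x) = - f x := by
    intro x
    rw [hfapp, hfapp, smul_neg, hodd, EH.eta_neg]
  obtain ⟨-, i1, e1, -, -⟩ := hmom V f M hM hfL hfodd
  have hgL : Lip (M / 2) (fun g => th (K R) w0 (f g)) := by
    intro x y
    have := hth R (M • y) (M • x)
    rw [← smul_sub, EH.nrm_smul M hM] at this
    simp only [hfapp]
    linarith
  have hgodd : ∀ x, (fun g => th (K R) w0 (f g)) (-x) = - (fun g => th (K R) w0 (f g)) x := by
    intro x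
    simp only [hfodd, EH.th_neg]
  obtain ⟨-, i2, e2, -, -⟩ := hmom V _ (M / 2) (by positivity) hgL hgodd
  have hcont : Continuous f := EH.continuous_of_Lip hfL
  have hcont2 : Continuous (fun g => hf (K R) w0 (f g)) :=
    (EH.continuous_hf (K R) w0 hw0).comp hcont
  have hint : Integrable (fun g => hf (K R) w0 (f g)) (gam V) := by
    refine Integrable.mono' (integrable_const ((w0⁻¹) ^ 4)) hcont2.aestronglyMeasurable ?_
    refine Filter.Eventually.of_forall fun g => ?_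
    rw [Real.norm_of_nonneg (hf_nn _ _ _)]
    exact hf_bd _ _ hw0 _
  have hKpos : 0 < K R := by linarith [hK R]
  have hpt : ∀ g, hf (K R) w0 (f g) ≤
      16 * ((K R)⁻¹) ^ 4 * (1 + f g ^ 8 + 2 ^ 7 * (1 + (th (K R) w0 (f g)) ^ 8)) := by
    intro g
    refine (hpot (f g)).trans (mul_le_mul_of_nonneg_left ?_ (by positivity))
    have h5 := add_pow_le (zero_le_one) (abs_nonneg (th (K R) w0 (f g))) 8
    have h6 : |th (K R) w0 (f g)| ^ 8 = (th (K R) w0 (f g)) ^ 8 := by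
      have : Even 8 := by decide
      exact this.pow_abs _
    rw [h6] at h5
    norm_num at h5
    linarith
  have hint2 : Integrable (fun g => 16 * ((K R)⁻¹) ^ 4 *
      (1 + f g ^ 8 + 2 ^ 7 * (1 + (th (K R) w0 (f g)) ^ 8))) (gam V) :=
    (((integrable_const 1).add i1).add (((integrable_const 1).add i2).const_mul _)).const_mul _
  have hfin : ∫ g, hf (K R) w0 (f g) ∂(gam V) ≤
      16 * ((K R)⁻¹) ^ 4 * (1 + C8 * M ^ 8 + 2 ^ 7 * (1 + C8 * (M / 2) ^ 8)) := by
    refine (integral_mono hint hint2 hpt).trans ?_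
    rw [integral_const_mul, integral_add, integral_add, integral_const_mul, integral_add]
    · simp only [integral_const, smul_eq_mul, mul_one]
      have hu : (gam V).real Set.univ = 1 := probReal_univ
      rw [hu]
      refine mul_le_mul_of_nonneg_left ?_ (by positivity)
      linarith
    · exact integrable_const 1
    · exact i2
    · exact integrable_const 1
    · exact i1
    · exact (integrable_const 1).add i1
    · exact ((integrable_const 1).add i2).const_mul _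
  rw [hfd] at hint hfin
  refine ⟨hint, hfin.trans (le_of_eq ?_)⟩
  ring

/-- the stiffness is controlled by the Lipschitz function `th` alone -/
theorem hf_le_th (hP2 : St_POT2) (K w0 : ℝ) (hK : 1 ≤ K) (hw0 : 0 < w0) (hw1 : w0 ≤ 1) (x : ℝ) :
    hf K w0 x ≤ (1 + |th K w0 x|) ^ 4 := by
  have hw : 0 < wf K w0 x := EH.wf_pos K w0 hw0 x
  have hth := (hP2 K w0 hK hw0 hw1).2.1
  unfold hf
  refine pow_le_pow_left₀ (inv_nonneg.2 hw.le) ?_ 4
  rcases le_or_gt 1 (wf K w0 x)⁻¹ with h | h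
  · have h1 := hth x (wf K w0 x)⁻¹ h (by rw [inv_inv]; exact le_max_right _ _)
      (by rw [inv_inv])
    linarith
  · have := abs_nonneg (th K w0 x)
    linarith

/-- the mean stiffness of any row is bounded, whatever the norm of the row is -/
theorem ehl (hP1 : St_POT1) (hP2 : St_POT2) (hMOM : St_MOM) (M : ℝ) (hM : 0 < M) :
    ∃ C : ℝ, 0 < C ∧
    ∀ (V W : Type) [Fintype V] [Fintype W] (b : W → V → ℝ) (K : W → ℝ) (w0 : ℝ)
    (z : (V → ℝ) → (V → ℝ)), (∀ R, 1 ≤ K R) → 0 < w0 → w0 ≤ 1 →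
    (∀ y, VIw b (pw K w0) y (z y)) → ∀ R,
    Integrable (fun g => hf (K R) w0 (eta b (z (M • g)) R)) (gam V) ∧
    ∫ g, hf (K R) w0 (eta b (z (M • g)) R) ∂(gam V) ≤ C := by
  obtain ⟨C8, hC8, hmom⟩ := hMOM
  refine ⟨2 ^ 7 * (1 + C8 * (M / 2) ^ 8), by positivity, ?_⟩
  intro V W _ _ b K w0 z hK hw0 hw1 hz R
  obtain ⟨hodd, -, hlipv, -, -, hth⟩ := solw hP1 b K w0 z hK hw0 hw1 hz
  obtain ⟨f, hfd⟩ : ∃ f : (V → ℝ) → ℝ, f = fun g => eta b (z (M • g)) R := ⟨_, rfl⟩
  have hfapp : ∀ g, f g = eta b (z (M • g)) R := fun g => by rw [hfd]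
  have hfodd : ∀ x, f (-x) = - f x := by
    intro x
    rw [hfapp, hfapp, smul_neg, hodd, EH.eta_neg]
  have hgL : Lip (M / 2) (fun g => th (K R) w0 (f g)) := by
    intro x y
    have := hth R (M • y) (M • x)
    rw [← smul_sub, EH.nrm_smul M hM] at this
    simp only [hfapp]
    linarith
  have hgodd : ∀ x, (fun g => th (K R) w0 (f g)) (-x) = - (fun g => th (K R) w0 (f g)) x := by
    intro x
    simp only [hfodd, EH.th_neg]
  obtain ⟨-, i2, e2, -, -⟩ := hmom V _ (M / 2) (by positivity) hgL hgodd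
  have hzc : ∀ v, Continuous (fun g : V → ℝ => z (M • g) v) := by
    intro v
    have h1 : Lip M (fun g : V → ℝ => z (M • g) v) := by
      intro x y
      have := hlipv v (M • y) (M • x)
      rw [← smul_sub, EH.nrm_smul M hM] at this
      exact this
    exact EH.continuous_of_Lip h1
  have hcont : Continuous f := by
    rw [hfd]
    unfold eta
    exact continuous_finsetSum _ fun v _ => continuous_const.mul (hzc v)
  have hcont2 : Continuous (fun g => hf (K R) w0 (f g)) :=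
    (EH.continuous_hf (K R) w0 hw0).comp hcont
  have hint : Integrable (fun g => hf (K R) w0 (f g)) (gam V) := by
    refine Integrable.mono' (integrable_const ((w0⁻¹) ^ 4)) hcont2.aestronglyMeasurable ?_
    refine Filter.Eventually.of_forall fun g => ?_
    rw [Real.norm_of_nonneg (hf_nn _ _ _)]
    exact hf_bd _ _ hw0 _
  have hpt : ∀ g, hf (K R) w0 (f g) ≤ 2 ^ 7 * (1 + (th (K R) w0 (f g)) ^ 8) := by
    intro g
    have h4 := hf_le_th hP2 (K R) w0 (hK R) hw0 hw1 (f g)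
    have h5 := add_pow_le (zero_le_one) (abs_nonneg (th (K R) w0 (f g))) 8
    have h6 : |th (K R) w0 (f g)| ^ 8 = (th (K R) w0 (f g)) ^ 8 := by
      have : Even 8 := by decide
      exact this.pow_abs _
    rw [h6] at h5
    norm_num at h5
    have h7 : (1 + |th (K R) w0 (f g)|) ^ 4 ≤ (1 + |th (K R) w0 (f g)|) ^ 8 := by
      refine pow_le_pow_right₀ ?_ (by norm_num)
      linarith [abs_nonneg (th (K R) w0 (f g))]
    norm_num
    linarith
  have hint2 : Integrable (fun g => 2 ^ 7 * (1 + (th (K R) w0 (f g)) ^ 8)) (gam V) :=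
    ((integrable_const 1).add i2).const_mul _
  have hfin : ∫ g, hf (K R) w0 (f g) ∂(gam V) ≤ 2 ^ 7 * (1 + C8 * (M / 2) ^ 8) := by
    refine (integral_mono hint hint2 hpt).trans ?_
    rw [integral_const_mul, integral_add]
    · simp only [integral_const, smul_eq_mul, mul_one]
      have hu : (gam V).real Set.univ = 1 := probReal_univ
      rw [hu]
      refine mul_le_mul_of_nonneg_left ?_ (by positivity)
      linarith
    · exact integrable_const 1
    · exact i2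
  rw [hfd] at hint hfin
  exact ⟨hint, hfin⟩

open HOTP in
/-- many given rows are rarely hot together -/
theorem hotpw (hP1 : St_POT1) (hPOT2 : St_POT2) (hCONC : St_CONC) (hMGF : St_MGF)
    (hMOM : St_MOM) (b : W → V → ℝ) (K : W → ℝ) (w0 M q : ℝ) (z : (V → ℝ) → (V → ℝ))
    (hK : ∀ R, 1 ≤ K R) (hw0 : 0 < w0) (hw1 : w0 ≤ 1) (hz : ∀ y, VIw b (pw K w0) y (z y))
    (hM : 0 < M) (hq : 2 * (1 + 2 * M) ≤ q) (hwq : w0 ≤ q⁻¹) (N : Finset W) :
    (gam V).real {g | ∀ R ∈ N, wf (K R) w0 (eta b (z (M • g)) R) ≤ q⁻¹}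
      ≤ Real.exp (-(N.card : ℝ) * q ^ 2 / (4 * M ^ 2)) := by
  obtain ⟨C8, -, hMOM⟩ := hMOM
  obtain ⟨hodd, -, -, -, hT, hf⟩ := solw hP1 b K w0 z hK hw0 hw1 hz
  have hM2 : 0 < M / 2 := by positivity
  -- the individual functions
  have hfR : ∀ R, Lip (M / 2) (fun g : V → ℝ => th (K R) w0 (eta b (z (M • g)) R)) := by
    intro R x y
    have h := hf R (M • y) (M • x)
    rw [← smul_sub, nrm_smul M hM] at h
    simp only
    linarith
  have hfodd : ∀ R, ∀ x : V → ℝ, th (K R) w0 (eta b (z (M • (-x))) R) =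
      - th (K R) w0 (eta b (z (M • x)) R) := by
    intro R x
    rw [smul_neg, hodd, eta_neg, th_neg]
  set T : (V → ℝ) → ℝ := fun g => Real.sqrt (∑ R ∈ N, th (K R) w0 (eta b (z (M • g)) R) ^ 2)
    with hTdef
  have hTlip : Lip (M / 2) T := by
    intro x y
    have h := hT N (M • y) (M • x)
    rw [← smul_sub, nrm_smul M hM] at h
    simp only [hTdef]
    linarith
  have hTint : Integrable T (gam V) := (hMGF V T (M / 2) hM2 hTlip).1
  have hTsq : ∀ x, T x ^ 2 = ∑ R ∈ N, th (K R) w0 (eta b (z (M • x)) R) ^ 2 := by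
    intro x
    simp only [hTdef]
    exact Real.sq_sqrt (Finset.sum_nonneg fun R _ => sq_nonneg _)
  have hT2int : Integrable (fun x => T x ^ 2) (gam V) := by
    have : (fun x => T x ^ 2) = fun x => ∑ R ∈ N, th (K R) w0 (eta b (z (M • x)) R) ^ 2 :=
      funext hTsq
    rw [this]
    exact integrable_finsetSum _ fun R _ => (hMOM V _ (M / 2) hM2 (hfR R) (hfodd R)).2.2.2.1
  have hT2 : ∫ x, T x ^ 2 ∂(gam V) ≤ N.card * (4 * M ^ 2) := by
    have : (fun x => T x ^ 2) = fun x => ∑ R ∈ N, th (K R) w0 (eta b (z (M • x)) R) ^ 2 :=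
      funext hTsq
    rw [this, integral_finsetSum _ fun R _ =>
      (hMOM V _ (M / 2) hM2 (hfR R) (hfodd R)).2.2.2.1]
    rw [← nsmul_eq_mul]
    refine Finset.sum_le_card_nsmul _ _ _ fun R _ => ?_
    refine (hMOM V _ (M / 2) hM2 (hfR R) (hfodd R)).2.2.2.2.trans (le_of_eq ?_)
    ring
  have hmean : (∫ x, T x ∂(gam V)) ^ 2 ≤ ∫ x, T x ^ 2 ∂(gam V) := by
    set c := ∫ x, T x ∂(gam V) with hc
    have h0 : 0 ≤ ∫ x, (T x - c) ^ 2 ∂(gam V) := integral_nonneg fun x => sq_nonneg _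
    have h1 : ∫ x, (T x - c) ^ 2 ∂(gam V) = ∫ x, T x ^ 2 ∂(gam V) - 2 * c * c + c ^ 2 := by
      have h2 : (fun x => (T x - c) ^ 2) = fun x => T x ^ 2 - (2 * c) * T x + c ^ 2 := by
        funext x
        ring
      have h3 : Integrable (fun x => (2 * c) * T x) (gam V) := hTint.const_mul _
      have h4 : Integrable (fun x => T x ^ 2 - (2 * c) * T x) (gam V) := hT2int.sub h3
      rw [h2, integral_add h4 (integrable_const _), integral_sub hT2int h3,
        integral_const_mul, integral_const, ← hc]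
      simp
    rw [h1] at h0
    nlinarith
  have hN0 : (0 : ℝ) ≤ N.card := Nat.cast_nonneg _
  have hmean2 : ∫ x, T x ∂(gam V) ≤ 2 * M * Real.sqrt N.card := by
    refine le_of_sq_le_sq ?_ (by positivity)
    rw [mul_pow, Real.sq_sqrt hN0]
    nlinarith [hmean.trans hT2]
  -- the event
  have hq1 : 1 ≤ q := by nlinarith
  set u : ℝ := Real.sqrt N.card * (q - 1 - 2 * M) with hu
  have hu0 : 0 ≤ u := mul_nonneg (Real.sqrt_nonneg _) (by nlinarith)
  have hsub : {g : V → ℝ | ∀ R ∈ N, wf (K R) w0 (eta b (z (M • g)) R) ≤ q⁻¹} ⊆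
      {x | (∫ y, T y ∂(gam V)) + u ≤ T x} := by
    intro g hg
    have hg' : ∀ R ∈ N, wf (K R) w0 (eta b (z (M • g)) R) ≤ q⁻¹ := hg
    have h1 : Real.sqrt N.card * (q - 1) ≤ T g := by
      simp only [hTdef]
      refine Real.le_sqrt_of_sq_le ?_
      rw [mul_pow, Real.sq_sqrt hN0, ← nsmul_eq_mul]
      refine Finset.card_nsmul_le_sum _ _ _ fun R hR => ?_
      have h2 := (hPOT2 (K R) w0 (hK R) hw0 hw1).2.1 _ q hq1 hwq (hg' R hR)
      rw [← sq_abs (th (K R) w0 (eta b (z (M • g)) R))]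
      have h3 : 0 ≤ q - 1 := by linarith
      exact pow_le_pow_left₀ h3 h2 2
    show (∫ y, T y ∂(gam V)) + u ≤ T g
    have h4 : u = Real.sqrt N.card * (q - 1) - 2 * M * Real.sqrt N.card := by
      rw [hu]
      ring
    linarith
  refine (measureReal_mono hsub).trans ((hCONC V T (M / 2) hM2 hTlip u hu0).trans ?_)
  apply Real.exp_le_exp.2
  have hqq : q / 2 ≤ q - 1 - 2 * M := by linarith
  have hu2 : (N.card : ℝ) * (q / 2) ^ 2 ≤ u ^ 2 := by
    rw [hu, mul_pow, Real.sq_sqrt hN0]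
    refine mul_le_mul_of_nonneg_left ?_ hN0
    exact pow_le_pow_left₀ (by positivity) hqq 2
  have e1 : 4 * (M / 2) ^ 2 = M ^ 2 := by ring
  rw [e1]
  have e2 : -(N.card : ℝ) * q ^ 2 / (4 * M ^ 2) = (-((N.card : ℝ) * (q / 2) ^ 2)) / M ^ 2 := by
    field_simp
    ring
  rw [e2]
  exact div_le_div_of_nonneg_right (by linarith) (by positivity)

end Pool.Agent.V8H5.LR
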