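import Pool.Agent.H320R2.LD.SOL
import Pool.Agent.H320R2.LD.EX

set_option autoImplicit false

/-!
# The variational inequality with a separate potential for every row

Adapted from `Pool.Agent.H320R2.LD` (EX, TWO, SOL): the position `K R` of the barrier depends on
the row.
-/

open MeasureTheory

namespace Pool.Agent.V8H5.LR

open Pool.Agent.H320R2.LD

variable {V W : Type} [Fintype V] [Fintype W]

/-- `z` minimises `|z-y|^2/2 + ∑_R P_R (eta_R z)` over the cube, where `P_R' = p R`. -/
def VIw (b : W → V → ℝ) (p : W → ℝ → ℝ) (y z : V → ℝ) : Prop :=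
  (∀ v, |z v| ≤ 1) ∧
    ∀ v, ∀ c : ℝ, |c| ≤ 1 → 0 ≤ (z v - y v + ∑ R, b R v * p R (eta b z R)) * (c - z v)

/-- the functional -/
noncomputable def Jw (b : W → V → ℝ) (p : W → ℝ → ℝ) (y z : V → ℝ) : ℝ :=
  ∑ v, (z v - y v) ^ 2 / 2 + ∑ R, ∫ u in (0:ℝ)..(eta b z R), p R u

theorem Jw_cont (b : W → V → ℝ) (p : W → ℝ → ℝ) (hp : ∀ R, Continuous (p R)) (y : V → ℝ) :
    Continuous (Jw b p y) := by
  unfold Jw
  refine Continuous.add (by fun_prop) (continuous_finset_sum _ fun R _ => ?_)
  have h1 : Continuous (fun x => ∫ u in (0:ℝ)..x, p R u) :=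
    continuous_iff_continuousAt.mpr fun x => (EX.hasDeriv (p R) (hp R) x).continuousAt
  exact h1.comp (by unfold eta; fun_prop)

theorem exw (b : W → V → ℝ) (p : W → ℝ → ℝ) (hp : ∀ R, Continuous (p R)) (y : V → ℝ) :
    ∃ z, VIw b p y z := by
  classical
  have hK : IsCompact (Set.pi Set.univ (fun _ : V => Set.Icc (-1 : ℝ) 1)) :=
    isCompact_univ_pi fun _ => isCompact_Icc
  obtain ⟨z, hz, hmin⟩ := hK.exists_isMinOn ⟨fun _ => 0, fun v _ => by simp⟩
    (Jw_cont b p hp y).continuousOn
  have hz1 : ∀ v, |z v| ≤ 1 := fun v => abs_le.mpr (hz v (Set.mem_univ v))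
  refine ⟨z, hz1, fun v c hc => ?_⟩
  -- the path
  set g : ℝ → V → ℝ := fun e u => z u + e * (if u = v then c - z v else 0) with hg
  have hgv : ∀ e u, HasDerivAt (fun e => g e u) (if u = v then c - z v else 0) e := by
    intro e u
    have h1 : HasDerivAt (fun e : ℝ => e * (if u = v then c - z v else 0))
      (1 * (if u = v then c - z v else 0)) e := (hasDerivAt_id e).mul_const _
    rw [one_mul] at h1
    exact h1.const_add (z u)
  have hd1 : HasDerivAt (fun e => ∑ u, (g e u - y u) ^ 2 / 2)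
      (∑ u, (g 0 u - y u) * (if u = v then c - z v else 0)) 0 := by
    refine HasDerivAt.fun_sum fun u _ => ?_
    have h1 := (((hgv 0 u).sub_const (y u)).pow 2).div_const 2
    refine h1.congr_deriv ?_
    simp only [Nat.cast_ofNat, Nat.add_one_sub_one, pow_one]
    ring
  have heta : ∀ R, HasDerivAt (fun e => eta b (g e) R) (b R v * (c - z v)) 0 := by
    intro R
    have h1 : HasDerivAt (fun e => ∑ u, b R u * g e u)
        (∑ u, b R u * (if u = v then c - z v else 0)) 0 :=
      HasDerivAt.fun_sum fun u _ => (hgv 0 u).const_mul (b R u)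
    have h2 : ∑ u, b R u * (if u = v then c - z v else 0) = b R v * (c - z v) := by
      simp
    rw [h2] at h1
    exact h1
  have hg0 : g 0 = z := by funext u; simp [hg]
  have hd2 : HasDerivAt (fun e => ∑ R, ∫ u in (0:ℝ)..(eta b (g e) R), p R u)
      (∑ R, p R (eta b z R) * (b R v * (c - z v))) 0 := by
    refine HasDerivAt.fun_sum fun R _ => ?_
    have h1 := (EX.hasDeriv (p R) (hp R) (eta b (g 0) R)).comp 0 (heta R)
    rw [hg0] at h1
    exact h1
  have hd := hd1.add hd2
  have hdval : (∑ u, (g 0 u - y u) * (if u = v then c - z v else 0)) +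
      ∑ R, p R (eta b z R) * (b R v * (c - z v)) =
      (z v - y v + ∑ R, b R v * p R (eta b z R)) * (c - z v) := by
    rw [hg0]
    simp only [mul_ite, mul_zero, Finset.sum_ite_eq', Finset.mem_univ, if_true]
    rw [add_mul, Finset.sum_mul]
    congr 1
    exact Finset.sum_congr rfl fun R _ => by ring
  rw [hdval] at hd
  have hJ : (fun e => ∑ u, (g e u - y u) ^ 2 / 2) +
      (fun e => ∑ R, ∫ u in (0:ℝ)..(eta b (g e) R), p R u) = fun e => Jw b p y (g e) := by
    funext e; rfl
  rw [hJ] at hd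
  -- derivative nonneg
  by_contra hneg
  push Not at hneg
  have hslope := hd.hasDerivWithinAt (s := Set.Ioi 0)
  have hlt := (hasDerivWithinAt_iff_tendsto_slope' (by simp)).mp hslope
  have hev := hlt.eventually (gt_mem_nhds hneg)
  have hev2 : ∀ᶠ e : ℝ in nhdsWithin 0 (Set.Ioi 0), e < 1 :=
    (gt_mem_nhds (show (0:ℝ) < 1 by norm_num)).filter_mono nhdsWithin_le_nhds
  have hev3 : ∀ᶠ e : ℝ in nhdsWithin 0 (Set.Ioi 0), 0 < e := self_mem_nhdsWithin
  obtain ⟨e, ⟨he1, he2⟩, he3⟩ := ((hev.and hev2).and hev3).exists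
  have hge : g e ∈ Set.pi Set.univ (fun _ : V => Set.Icc (-1 : ℝ) 1) := by
    intro u _
    have hzu := hz u (Set.mem_univ u)
    have hcc := abs_le.mp hc
    simp only [hg]
    split_ifs with hu
    · subst hu
      constructor
      · nlinarith [hzu.1, hcc.1]
      · nlinarith [hzu.2, hcc.2]
    · simpa using hzu
  have hmin' := hmin hge
  simp only [Set.mem_setOf_eq] at hmin'
  have hslope' : slope (fun e => Jw b p y (g e)) 0 e = (Jw b p y (g e) - Jw b p y z) / e := by
    rw [slope_def_field, hg0, sub_zero]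
  rw [hslope'] at he1
  have : 0 ≤ (Jw b p y (g e) - Jw b p y z) / e := div_nonneg (sub_nonneg.mpr hmin') he3.le
  linarith

/-- two inputs -/
theorem twow (b : W → V → ℝ) (p : W → ℝ → ℝ) (hp : ∀ R, Monotone (p R)) (y y' z z' : V → ℝ)
    (h : VIw b p y z) (h' : VIw b p y' z') :
    (∀ v, (z' v - z v) * ((z' v - z v) - (y' v - y v)
      + ∑ R, b R v * (p R (eta b z' R) - p R (eta b z R))) ≤ 0) ∧
    (nsq (z' - z) + ∑ R, (p R (eta b z' R) - p R (eta b z R)) * (eta b z' R - eta b z R)
      ≤ ∑ v, (y' v - y v) * (z' v - z v)) ∧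
    (nrm (z' - z) ≤ nrm (y' - y)) ∧
    (∑ R, (p R (eta b z' R) - p R (eta b z R)) * (eta b z' R - eta b z R)
      ≤ nsq (y' - y) / 4) := by
  have c1 : ∀ v, (z' v - z v) * ((z' v - z v) - (y' v - y v)
      + ∑ R, b R v * (p R (eta b z' R) - p R (eta b z R))) ≤ 0 := by
    intro v
    have e1 := h.2 v (z' v) (h'.1 v)
    have e2 := h'.2 v (z v) (h.1 v)
    have e3 : ∑ R, b R v * (p R (eta b z' R) - p R (eta b z R)) =
        (∑ R, b R v * p R (eta b z' R)) - ∑ R, b R v * p R (eta b z R) := by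
      rw [← Finset.sum_sub_distrib]
      exact Finset.sum_congr rfl fun R _ => by ring
    rw [e3]
    nlinarith
  have c2 : nsq (z' - z) + ∑ R, (p R (eta b z' R) - p R (eta b z R)) * (eta b z' R - eta b z R)
      ≤ ∑ v, (y' v - y v) * (z' v - z v) := by
    have e1 := Finset.sum_nonpos (s := Finset.univ) fun v _ => c1 v
    have e2 : ∑ v, (z' v - z v) * ((z' v - z v) - (y' v - y v)
        + ∑ R, b R v * (p R (eta b z' R) - p R (eta b z R))) =
        nsq (z' - z) - ∑ v, (y' v - y v) * (z' v - z v) +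
          ∑ v, ∑ R, (p R (eta b z' R) - p R (eta b z R)) * (b R v * (z' v - z v)) := by
      unfold nsq
      rw [← Finset.sum_sub_distrib, ← Finset.sum_add_distrib]
      refine Finset.sum_congr rfl fun v _ => ?_
      have e3 : ∑ R, (p R (eta b z' R) - p R (eta b z R)) * (b R v * (z' v - z v)) =
          (z' v - z v) * ∑ R, b R v * (p R (eta b z' R) - p R (eta b z R)) := by
        rw [Finset.mul_sum]
        exact Finset.sum_congr rfl fun R _ => by ring
      rw [e3, Pi.sub_apply]
      ring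
    have e4 : ∑ v, ∑ R, (p R (eta b z' R) - p R (eta b z R)) * (b R v * (z' v - z v)) =
        ∑ R, (p R (eta b z' R) - p R (eta b z R)) * (eta b z' R - eta b z R) := by
      rw [Finset.sum_comm]
      refine Finset.sum_congr rfl fun R _ => ?_
      rw [← Finset.mul_sum]
      congr 1
      unfold eta
      rw [← Finset.sum_sub_distrib]
      exact Finset.sum_congr rfl fun v _ => by ring
    rw [e2, e4] at e1
    linarith
  have c3 : 0 ≤ ∑ R, (p R (eta b z' R) - p R (eta b z R)) * (eta b z' R - eta b z R) := by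
    apply Finset.sum_nonneg
    intro R _
    rcases le_total (eta b z R) (eta b z' R) with hle | hle
    · exact mul_nonneg (sub_nonneg.2 (hp R hle)) (sub_nonneg.2 hle)
    · exact mul_nonneg_of_nonpos_of_nonpos (sub_nonpos.2 (hp R hle)) (sub_nonpos.2 hle)
  have hD : 0 ≤ nsq (z' - z) := by
    unfold nsq
    exact Finset.sum_nonneg fun v _ => sq_nonneg _
  refine ⟨c1, c2, ?_, ?_⟩
  · have e1 : ∑ v, (y' v - y v) * (z' v - z v) ≤ nrm (y' - y) * nrm (z' - z) := by
      have := Real.sum_mul_le_sqrt_mul_sqrt Finset.univ (fun v => y' v - y v)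
        (fun v => z' v - z v)
      exact this
    have e2 : nrm (z' - z) ^ 2 = nsq (z' - z) := by
      unfold nrm
      rw [Real.sq_sqrt hD]
    have e3 : 0 ≤ nrm (z' - z) := Real.sqrt_nonneg _
    have e4 : 0 ≤ nrm (y' - y) := Real.sqrt_nonneg _
    by_contra hcon
    push Not at hcon
    have e5 : 0 < nrm (z' - z) := lt_of_le_of_lt e4 hcon
    nlinarith
  · have e1 : ∑ v, (y' v - y v) * (z' v - z v) - nsq (z' - z) ≤ nsq (y' - y) / 4 := by
      unfold nsq
      rw [← Finset.sum_sub_distrib, Finset.sum_div]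
      apply Finset.sum_le_sum
      intro v _
      rw [Pi.sub_apply, Pi.sub_apply]
      nlinarith [sq_nonneg ((y' v - y v) / 2 - (z' v - z v))]
    linarith

/-- the potentials of the rows -/
noncomputable def pw (K : W → ℝ) (w0 : ℝ) : W → ℝ → ℝ := fun R => pf (K R) w0

open SOL in
/-- consequences for the solution map: it is odd, Lipschitz, and so are the row sums. -/
theorem solw (hP : St_POT1) (b : W → V → ℝ) (K : W → ℝ) (w0 : ℝ)
    (z : (V → ℝ) → (V → ℝ)) (hK : ∀ R, 1 ≤ K R) (hw0 : 0 < w0) (hw1 : w0 ≤ 1)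
    (hz : ∀ y, VIw b (pw K w0) y (z y)) :
    (∀ y, z (-y) = - z y) ∧
    (∀ y y', nrm (z y' - z y) ≤ nrm (y' - y)) ∧
    (∀ v y y', |z y' v - z y v| ≤ nrm (y' - y)) ∧
    (∀ R, (∑ v, b R v ^ 2 ≤ 1) → ∀ y y', |eta b (z y') R - eta b (z y) R| ≤ nrm (y' - y)) ∧
    (∀ N : Finset W, ∀ y y',
      |Real.sqrt (∑ R ∈ N, th (K R) w0 (eta b (z y') R) ^ 2)
        - Real.sqrt (∑ R ∈ N, th (K R) w0 (eta b (z y) R) ^ 2)| ≤ nrm (y' - y) / 2) ∧
    (∀ R y y', |th (K R) w0 (eta b (z y') R) - th (K R) w0 (eta b (z y) R)|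
      ≤ nrm (y' - y) / 2) := by
  have hpm : ∀ R, Monotone (pw K w0 R) := fun R => (hP (K R) w0 (hK R) hw0 hw1).2.2.1
  have hpodd : ∀ R x, pw K w0 R (-x) = - pw K w0 R x :=
    fun R => (hP (K R) w0 (hK R) hw0 hw1).2.2.2.2.1
  have hth : ∀ R x y, (th (K R) w0 y - th (K R) w0 x) ^ 2 ≤
      (y - x) * (pw K w0 R y - pw K w0 R x) := fun R => (hP (K R) w0 (hK R) hw0 hw1).2.2.2.2.2.2.2
  have hlip : ∀ y y', nrm (z y' - z y) ≤ nrm (y' - y) := fun y y' =>
    (twow b (pw K w0) hpm y y' (z y) (z y') (hz y) (hz y')).2.2.1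
  have hfour : ∀ y y', ∑ R, (pw K w0 R (eta b (z y') R) - pw K w0 R (eta b (z y) R)) *
      (eta b (z y') R - eta b (z y) R) ≤ nsq (y' - y) / 4 := fun y y' =>
    (twow b (pw K w0) hpm y y' (z y) (z y') (hz y) (hz y')).2.2.2
  have hterm : ∀ R, ∀ a c : ℝ, 0 ≤ (pw K w0 R c - pw K w0 R a) * (c - a) := by
    intro R a c
    rcases le_total a c with hac | hac
    · exact mul_nonneg (sub_nonneg.mpr (hpm R hac)) (sub_nonneg.mpr hac)
    · exact mul_nonneg_of_nonpos_of_nonpos (sub_nonpos.mpr (hpm R hac)) (sub_nonpos.mpr hac)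
  have hthsum : ∀ (N : Finset W) y y', ∑ R ∈ N, (th (K R) w0 (eta b (z y') R) -
      th (K R) w0 (eta b (z y) R)) ^ 2 ≤ nsq (y' - y) / 4 := by
    intro N y y'
    refine le_trans ?_ (hfour y y')
    refine le_trans (Finset.sum_le_sum (g := fun R => (pw K w0 R (eta b (z y') R) -
      pw K w0 R (eta b (z y) R)) * (eta b (z y') R - eta b (z y) R)) ?_)
      (Finset.sum_le_sum_of_subset_of_nonneg (Finset.subset_univ N) fun R _ _ => hterm _ _ _)
    intro R _
    have := hth R (eta b (z y) R) (eta b (z y') R)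
    linarith
  have hfive : ∀ N : Finset W, ∀ y y',
      |Real.sqrt (∑ R ∈ N, th (K R) w0 (eta b (z y') R) ^ 2)
        - Real.sqrt (∑ R ∈ N, th (K R) w0 (eta b (z y) R) ^ 2)| ≤ nrm (y' - y) / 2 := by
    intro N y y'
    have hs : ∀ y y', Real.sqrt (∑ R ∈ N, (th (K R) w0 (eta b (z y') R) -
        th (K R) w0 (eta b (z y) R)) ^ 2) ≤ nrm (y' - y) / 2 := by
      intro y y'
      rw [Real.sqrt_le_left (by have := nrm_nonneg (y' - y); positivity)]
      have h1 := hthsum N y y'
      have h2 := nrm_sq (y' - y)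
      nlinarith
    have hsym : nrm (y - y') = nrm (y' - y) := by
      unfold nrm nsq
      congr 1
      exact Finset.sum_congr rfl fun v _ => by simp only [Pi.sub_apply]; ring
    rw [abs_le]
    constructor
    · have h1 := sqrt_tri N (fun R => th (K R) w0 (eta b (z y) R))
        (fun R => th (K R) w0 (eta b (z y') R))
      have h2 := hs y' y
      rw [hsym] at h2
      linarith
    · have h1 := sqrt_tri N (fun R => th (K R) w0 (eta b (z y') R))
        (fun R => th (K R) w0 (eta b (z y) R))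
      have h2 := hs y y'
      linarith
  refine ⟨?_, hlip, ?_, ?_, hfive, ?_⟩
  · intro y
    have hVI : VIw b (pw K w0) (-y) (-(z y)) := by
      refine ⟨fun v => ?_, fun v c hc => ?_⟩
      · simp only [Pi.neg_apply, abs_neg]; exact (hz y).1 v
      · have h1 := (hz y).2 v (-c) (by rwa [abs_neg])
        have h2 : ∀ R, eta b (-(z y)) R = - eta b (z y) R := by
          intro R
          unfold eta
          rw [← Finset.sum_neg_distrib]
          exact Finset.sum_congr rfl fun v _ => by simp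
        have h3 : ∑ R, b R v * pw K w0 R (eta b (-(z y)) R) =
            - ∑ R, b R v * pw K w0 R (eta b (z y) R) := by
          rw [← Finset.sum_neg_distrib]
          exact Finset.sum_congr rfl fun R _ => by rw [h2, hpodd]; ring
        rw [h3]
        simp only [Pi.neg_apply]
        linarith
    have h1 := (twow b (pw K w0) hpm (-y) (-y) (-(z y)) (z (-y)) hVI (hz (-y))).2.2.1
    rw [sub_self, nrm_zero] at h1
    have h2 := eq_zero_of_nrm h1
    exact sub_eq_zero.mp h2
  · intro v y y'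
    exact (abs_le_nrm (z y' - z y) v).trans (hlip y y')
  · intro R hR y y'
    have h1 : eta b (z y') R - eta b (z y) R = ∑ v, b R v * (z y' - z y) v := by
      unfold eta
      rw [← Finset.sum_sub_distrib]
      exact Finset.sum_congr rfl fun v _ => by simp only [Pi.sub_apply]; ring
    refine le_trans ?_ (hlip y y')
    rw [h1]
    have h2 := Finset.sum_mul_sq_le_sq_mul_sq Finset.univ (fun v => b R v) (fun v => (z y' - z y) v)
    refine abs_le_of_sq_le_sq ?_ (nrm_nonneg _)
    rw [nrm_sq]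
    refine h2.trans ?_
    unfold nsq
    exact mul_le_of_le_one_left (Finset.sum_nonneg fun _ _ => sq_nonneg _) hR
  · intro R y y'
    have h1 := hthsum {R} y y'
    rw [Finset.sum_singleton] at h1
    refine abs_le_of_sq_le_sq ?_ (by have := nrm_nonneg (y' - y); positivity)
    have h2 := nrm_sq (y' - y)
    nlinarith

end Pool.Agent.V8H5.LR
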